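import Mathlib
import Pool.Agent.helper58.DC.Spec1

/-!
# Project di (MP_baa4d7_al): the ordinary conjecture of Dade implies the invariant conjecture for
cyclic quotients. Definitions.

All groups are finite. The definitions `Irr`, `IrrOn`, `Defect`, `omega`, `Induces`, `PosDefect`,
`IsOp`, `nrm`, `IsRadical`, `chainMap`, `funMap`, `Extension`, `kC`, `altSum` are those of
`Pool/Agent/helper58/DC/Defs.lean`.
-/

set_option autoImplicit false

namespace Pool.Agent.DI

open Pool.Agent.helper58.DC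

/-- Congruence of complex numbers modulo an ideal of the ring of algebraic integers. -/
def Mcong (M : Ideal (integralClosure ℤ ℂ)) (a b : ℂ) : Prop :=
  ∃ c ∈ M, a - b = ((c : integralClosure ℤ ℂ) : ℂ)

section

variable {Γ : Type} [Group Γ]

/-- the normaliser -/
abbrev nz (P : Subgroup Γ) : Subgroup Γ := Subgroup.normalizer (P : Set Γ)

/-- the centraliser -/
abbrev cz (P : Subgroup Γ) : Subgroup Γ := Subgroup.centralizer (P : Set Γ)

/-- `C` is a chain of `p`-subgroups of `L` with smallest term `P`. -/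
structure PCh (p : ℕ) (L P : Subgroup Γ) (C : Finset (Subgroup Γ)) : Prop where
  chain : IsChain (· ≤ ·) (C : Set (Subgroup Γ))
  mem : P ∈ C
  bot : ∀ Q ∈ C, P ≤ Q
  le : ∀ Q ∈ C, Q ≤ L
  pg : ∀ Q ∈ C, IsPGroup p Q

/-- Alternating sum over the chains of `p`-subgroups of `L` with smallest term `P` of a function of
the normaliser in `M` of the chain. -/
noncomputable def cSum (p : ℕ) (L P M : Subgroup Γ) (g : Subgroup Γ → ℤ) : ℤ :=
  ∑ᶠ C ∈ {C : Finset (Subgroup Γ) | PCh p L P C}, (-1) ^ (C.card + 1) * g (M ⊓ nrm C)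

open Classical in
/-- The radical `p`-chains of the subgroup `L` of `Γ`. -/
structure RadIn (p : ℕ) (L : Subgroup Γ) (C : Finset (Subgroup Γ)) : Prop where
  chain : IsChain (· ≤ ·) (C : Set (Subgroup Γ))
  pg : ∀ P ∈ C, IsPGroup p P
  rad : ∃ P₀ ∈ C, (∀ P ∈ C, P₀ ≤ P) ∧ IsOp p L P₀ ∧
    ∀ P ∈ C, P ≠ P₀ → IsOp p (L ⊓ nrm (C.filter (· ≤ P))) P

/-- Alternating sum over the radical `p`-chains of `L`. -/
noncomputable def rSum (p : ℕ) (L M : Subgroup Γ) (g : Subgroup Γ → ℤ) : ℤ :=
  ∑ᶠ C ∈ {C : Finset (Subgroup Γ) | RadIn p L C}, (-1) ^ (C.card + 1) * g (M ⊓ nrm C)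

open Classical in
/-- Image of a chain under a homomorphism. -/
noncomputable def cmap {K : Type} [Group K] (i : K →* Γ) (C : Finset (Subgroup K)) :
    Finset (Subgroup Γ) :=
  C.image (Subgroup.map i)

/-- Extension by zero of a function along an (injective) homomorphism. -/
noncomputable def ext0 {K : Type} [Group K] (i : K →* Γ) (ψ : K → ℂ) : Γ → ℂ :=
  Function.extend i ψ 0

/-- The stabiliser in `N` of the function `ψ`, for the action by conjugation. -/
def stF (N : Subgroup Γ) (ψ : Γ → ℂ) : Subgroup Γ where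
  carrier := {n | n ∈ N ∧ funMap (MulAut.conj n) ψ = ψ}
  mul_mem' := by
    rintro a b ⟨ha, ha'⟩ ⟨hb, hb'⟩
    refine ⟨N.mul_mem ha hb, ?_⟩
    have h : funMap (MulAut.conj (a * b)) ψ =
        funMap (MulAut.conj a) (funMap (MulAut.conj b) ψ) := by
      funext g
      simp [funMap, mul_assoc]
    rw [h, hb', ha']
  one_mem' := ⟨N.one_mem, by funext g; simp [funMap]⟩
  inv_mem' := by
    rintro a ⟨ha, ha'⟩
    refine ⟨N.inv_mem ha, ?_⟩
    conv_lhs => rw [← ha']
    funext g
    simp [funMap, mul_assoc]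

/-- The restriction of `φ` to `K` is the sum of the distinct `N`-conjugates of `ψ`. (If `K` is normal
in `N` and `ψ` is an irreducible character of `K`, this means that `φ` lies over `ψ` and that
the ramification index is `1`.) -/
def OverP (K N : Subgroup Γ) (φ ψ : Γ → ℂ) : Prop :=
  ∀ x ∈ K, φ x = ∑ᶠ ψ' ∈ {ψ' : Γ → ℂ | ∃ n ∈ N, ψ' = funMap (MulAut.conj n) ψ}, ψ' x

/-- The values `omega φ g`, `g ∈ G'`, are congruent to `τ g`. -/
def Cov (M : Ideal (integralClosure ℤ ℂ)) (G' : Subgroup Γ) (τ φ : Γ → ℂ) : Prop :=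
  ∀ g ∈ G', Mcong M (omega φ g) (τ g)

/-- `|N|` times the number of irreducible characters `φ` of `N` of defect `d` with `Cov`. -/
noncomputable def gfun (p : ℕ) (M : Ideal (integralClosure ℤ ℂ)) (G' : Subgroup Γ) (τ : Γ → ℂ)
    (d : ℤ) (N : Subgroup Γ) : ℤ :=
  (Nat.card N : ℤ) * Nat.card {φ : Γ → ℂ // φ ∈ IrrOn N ∧ Defect p N φ d ∧ Cov M G' τ φ}

/-- The index in the stabiliser `stF N ψ` of `N ⊓ G'`. -/
noncomputable def rr (G' N : Subgroup Γ) (ψ : Γ → ℂ) : ℕ :=
  Nat.card (stF N ψ) / Nat.card (N ⊓ G' : Subgroup Γ)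

/-- `ψ` applied to the element `∑ z x x` of the group algebra, divided by `ψ 1`. -/
noncomputable def cc (ψ z : Γ → ℂ) : ℂ := (∑ᶠ x, z x * ψ x) / ψ 1

/-- convolution -/
noncomputable def cv (z w : Γ → ℂ) : Γ → ℂ := fun g => ∑ᶠ x, z x * w (x⁻¹ * g)

/-- `G'` is normal in `Γ` with cyclic quotient. -/
def CycQ (G' : Subgroup Γ) : Prop := G'.Normal ∧ ∃ s : Γ, ∀ x : Γ, ∃ k : ℤ, s ^ k * x ∈ G'

/-- `z` is an element of the centre of the group ring over the algebraic integers. -/
def IsZO (z : Γ → ℂ) : Prop := (∀ x y, z (y * x * y⁻¹) = z x) ∧ ∀ x, IsIntegral ℤ (z x)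

/-- `cc ψ` is, modulo `M`, a homomorphism on the centre of the group ring over the algebraic
integers. -/
structure IsMult (M : Ideal (integralClosure ℤ ℂ)) (ψ : Γ → ℂ) : Prop where
  ne : ψ 1 ≠ 0
  int : ∀ z, IsZO z → IsIntegral ℤ (cc ψ z)
  mul : ∀ z w, IsZO z → IsZO w → Mcong M (cc ψ (cv z w)) (cc ψ z * cc ψ w)

end

/-- The trivial extension `E = G`. -/
def trivE (G : Type) [Group G] : Extension G G Unit where
  inc := MonoidHom.id G
  proj := 1
  inc_injective := Function.injective_id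
  proj_surjective := fun _ => ⟨1, rfl⟩
  exact := fun e => ⟨fun _ => ⟨e, rfl⟩, fun _ => rfl⟩
  act := MulAut.conj
  act_spec := fun _ _ => rfl

/-- Dade's ordinary conjecture for the prime `p`: the invariant conjecture with `E = G`. -/
def Ord (p : ℕ) (M : Ideal (integralClosure ℤ ℂ)) : Prop :=
  ∀ (G : Type) [Group G] [Finite G], IsOp p (⊤ : Subgroup G) ⊥ → ∀ χ ∈ Irr G,
    PosDefect p M χ → ∀ d : ℤ, altSum (trivE G) p M χ d ⊤ = 0

/-- The invariant conjecture for all extensions with cyclic `A = E / G`. -/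
def CycInv (p : ℕ) (M : Ideal (integralClosure ℤ ℂ)) : Prop :=
  ∀ (G E A : Type) [Group G] [Group E] [Group A] [Finite G] [Finite E] (X : Extension G E A),
    IsCyclic A → IsOp p (⊤ : Subgroup G) ⊥ → ∀ χ ∈ Irr G, PosDefect p M χ →
      ∀ (d : ℤ) (U : Subgroup A), altSum X p M χ d U = 0

/-- For every extension and every cyclic subgroup `U` of `A = E / G` the sum of the alternating sums
over all subgroups which contain `U` vanishes. -/
def CycSum (p : ℕ) (M : Ideal (integralClosure ℤ ℂ)) : Prop :=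
  ∀ (G E A : Type) [Group G] [Group E] [Group A] [Finite G] [Finite E] (X : Extension G E A),
    IsOp p (⊤ : Subgroup G) ⊥ → ∀ χ ∈ Irr G, PosDefect p M χ →
      ∀ (d : ℤ) (U : Subgroup A), IsCyclic U →
        ∑ᶠ V : {V : Subgroup A // U ≤ V}, altSum X p M χ d V.1 = 0

/-- The invariant conjecture for all extensions with cyclic `A` of order `< n`. -/
def CycN (p : ℕ) (M : Ideal (integralClosure ℤ ℂ)) (n : ℕ) : Prop :=
  ∀ (G E A : Type) [Group G] [Group E] [Group A] [Finite G] [Finite E] (X : Extension G E A),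
    IsCyclic A → Nat.card A < n → IsOp p (⊤ : Subgroup G) ⊥ → ∀ χ ∈ Irr G, PosDefect p M χ →
      ∀ (d : ℤ) (U : Subgroup A), altSum X p M χ d U = 0

/-- Realisation of the extension `Y` of `K` inside a group `Γ` with a (normal) subgroup `G'`:
`K` is `M' ⊓ G'` and `E` is the quotient of the subgroup `M'` by a subgroup of order `q`. -/
structure Emb {K E A : Type} [Group K] [Group E] [Group A] (Y : Extension K E A) {Γ : Type}
    [Group Γ] (G' M' : Subgroup Γ) (q : ℕ) where
  /-- the embedding -/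
  i : K →* Γ
  /-- the projection -/
  π : M' →* E
  i_inj : Function.Injective i
  π_surj : Function.Surjective π
  range : i.range = M' ⊓ G'
  compat : ∀ (k : K) (hk : i k ∈ M'), π ⟨i k, hk⟩ = Y.inc k
  act : ∀ (m : M') (k : K), i (Y.act (π m) k) = m * i k * (m : Γ)⁻¹
  card : Nat.card π.ker = q

end Pool.Agent.DI
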