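import Mathlib
import Pool.Agent.helper81.DI.Defs

/-!
# Project di (MP_baa4d7_al), part A: chains of p-subgroups

A module XX proves `theorem XX (hYY : YY_stmt) ... : XX_stmt` (any statements `YY_stmt` of the four
spec files of this project and of `helper58/DC/Spec1` may be used as hypotheses) in the file
`Pool/Agent/<seat>/DI/XX.lean`, namespace `Pool.Agent.DI`. Auxiliary lemmas get the prefix `XX_`.
-/

set_option autoImplicit false

namespace Pool.Agent.DI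

open Pool.Agent.helper58.DC

open Classical in
/-- A1. Toggling an element. (The involution `C ↦ if t C ∈ C then C.erase (t C) else insert (t C) C`
of the finite set `S` has no fixed point, changes the parity of the cardinality and preserves `F`:
`Finset.sum_involution`.) -/
def A1_stmt : Prop :=
  ∀ (α : Type) [Finite α] (S : Set (Finset α)) (t : Finset α → α) (F : Finset α → ℤ),
    (∀ C ∈ S, ∀ D, (D = insert (t C) C ∨ D = C.erase (t C)) → D ∈ S ∧ t D = t C ∧ F D = F C) →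
    ∑ᶠ C ∈ S, (-1) ^ (C.card + 1) * F C = 0

/-- A2. Facts on `O_p`. (Existence: the join of two `p`-subgroups of `H` normalised by `H` is such a
subgroup. If `x` normalises `H`, then `x P x⁻¹` is a `p`-subgroup of `H` normalised by `H`, hence
`≤ P`, and equal to `P` by cardinality.) -/
def A2_stmt : Prop :=
  ∀ (Γ : Type) [Group Γ] [Finite Γ] (p : ℕ) [Fact p.Prime] (H : Subgroup Γ),
    (∃ P, IsOp p H P) ∧ ∀ P, IsOp p H P → P ≤ H ∧ IsPGroup p P ∧ H ≤ nz P ∧ nz H ≤ nz P ∧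
      ∀ Q, IsOp p H Q → Q = P

/-- A3. Chains may be taken in the normaliser of the smallest term. Proof: the chains of the left
side with all terms `≤ nz P` are the chains of the right side. On the other chains let `R` be the
smallest term with `¬ R ≤ nz P` and toggle `t C = R ⊓ nz P` (A1 with `F C = g (M ⊓ nrm C)`): `R` is a
`p`-group and `P < R`, so `P < R ⊓ nz P` (normaliser condition); the terms `Q ≤ nz P` are `≤ R`, so
`≤ R ⊓ nz P`, the others are `≥ R`; the new term is normalised by `nrm C` as `P`, `R` are terms of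
`C` (and of the toggled chain). -/
def A3_stmt : Prop :=
  ∀ (Γ : Type) [Group Γ] [Finite Γ] (p : ℕ) [Fact p.Prime] (L P M : Subgroup Γ)
    (g : Subgroup Γ → ℤ), cSum p L P M g = cSum p (L ⊓ nz P) P M g

/-- A4. Vanishing. Let `R` be the largest term of `C` which does not contain `Y` (`P` is such a term)
and toggle `t C = R ⊔ Y` (A1). It is a `p`-group as `R ≤ L ≤ nz Y`; terms containing `Y` are `≥ R`
(otherwise they are `< R`), so `≥ R ⊔ Y`; `M ⊓ nrm C ≤ M ⊓ nz P ≤ nz Y` normalises `R ⊔ Y`. -/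
def A4_stmt : Prop :=
  ∀ (Γ : Type) [Group Γ] [Finite Γ] (p : ℕ) [Fact p.Prime] (L P M Y : Subgroup Γ)
    (g : Subgroup Γ → ℤ), IsPGroup p Y → Y ≤ L → L ≤ nz Y → M ⊓ nz P ≤ nz Y → ¬ Y ≤ P →
    cSum p L P M g = 0

/-- A5. Recursion by the second term. (`C = {P}` or `C = insert P C'` where `C'` is a chain with
smallest term `P₁ > P`; `M ⊓ nrm (insert P C') = (M ⊓ nz P) ⊓ nrm C'`.) -/
def A5_stmt : Prop :=
  ∀ (Γ : Type) [Group Γ] [Finite Γ] (p : ℕ) [Fact p.Prime] (L P M : Subgroup Γ)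
    (g : Subgroup Γ → ℤ), IsPGroup p P → P ≤ L →
    cSum p L P M g = g (M ⊓ nz P) -
      ∑ᶠ P₁ ∈ {P₁ : Subgroup Γ | P < P₁ ∧ P₁ ≤ L ∧ IsPGroup p P₁}, cSum p L P₁ (M ⊓ nz P) g

/-- A6. Recursion for radical chains. (`C = {P₀}` or `C = insert P₀ C'` with `C'` a radical chain of
`L ⊓ nz P₁`, where `P₁ > P₀` is the second term. Note `L ≤ nz P₀`, so that
`L ⊓ nrm (insert P₀ D) = L ⊓ nrm D`, and `= (L ⊓ nz P₁) ⊓ nrm D` if `P₁ ∈ D`.) -/
def A6_stmt : Prop :=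
  ∀ (Γ : Type) [Group Γ] [Finite Γ] (p : ℕ) [Fact p.Prime] (L P₀ M : Subgroup Γ)
    (g : Subgroup Γ → ℤ), IsOp p L P₀ →
    rSum p L M g = g (M ⊓ nz P₀) -
      ∑ᶠ P₁ ∈ {P₁ : Subgroup Γ | P₀ < P₁ ∧ P₁ ≤ L ∧ IsOp p (L ⊓ nz P₁) P₁},
        rSum p (L ⊓ nz P₁) (M ⊓ nz P₀) g

/-- A7. Radical chains and all chains (Knörr-Robinson). Strong induction on `|L|` (for all `M`, `P₀`).
By A5 the right side is `g (M ⊓ nz P₀) - ∑_{P₁} cSum p L P₁ (M ⊓ nz P₀) g`, and by A3 the summand is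
`cSum p (L ⊓ nz P₁) P₁ (M ⊓ nz P₀) g`. Let `Y = O_p (L ⊓ nz P₁)`; `P₁ ≤ Y`. If `Y ≠ P₁` the
summand is `0` by A4: an element of `(M ⊓ nz P₀) ⊓ nz P₁` normalises `L` and `nz P₁`, hence
`L ⊓ nz P₁`, hence `Y` (A2). If `Y = P₁` use the induction hypothesis: `L ⊓ nz P₁ < L`, as otherwise
`P₁ ≤ O_p L = P₀`. Compare with A6. -/
def A7_stmt : Prop :=
  ∀ (Γ : Type) [Group Γ] [Finite Γ] (p : ℕ) [Fact p.Prime] (L P₀ M : Subgroup Γ)
    (g : Subgroup Γ → ℤ), IsOp p L P₀ → M ⊓ nz P₀ ≤ nz L → rSum p L M g = cSum p L P₀ M g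

/-- A8. Transport of radical chains along an injective homomorphism. (`C ↦ cmap i C` is a bijection
from the radical chains of `K` to the sets with `RadIn p i.range`; cardinalities are preserved;
`(nrm C).map i = i.range ⊓ nrm (cmap i C)`, and `IsOp p H P ↔ IsOp p (H.map i) (P.map i)`, because
every subgroup of `i.range` is an image.) -/
def A8_stmt : Prop :=
  ∀ (K Γ : Type) [Group K] [Finite K] [Group Γ] [Finite Γ] (p : ℕ) [Fact p.Prime] (i : K →* Γ),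
    Function.Injective i → ∀ (M : Subgroup Γ) (g : Subgroup Γ → ℤ),
    ∑ᶠ C ∈ {C : Finset (Subgroup K) | IsRadical p C},
      (-1) ^ (C.card + 1) * g (M ⊓ nrm (cmap i C)) = rSum p i.range M g

/-- A9. Normalisers of subgroups which meet `G` trivially, `Γ / G` abelian:
`[nz Q, Q] ≤ Q ⊓ G = 1`. -/
def A9_stmt : Prop :=
  ∀ (Γ : Type) [Group Γ] [Finite Γ] (G Q : Subgroup Γ), G.Normal →
    (∀ x y : Γ, x * y * x⁻¹ * y⁻¹ ∈ G) → Q ⊓ G = ⊥ → nz Q = cz Q ∧ Q ≤ cz Q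

/-- A10. Splitting off the chains in `Q ⊔ G`. By Dedekind `R ⊓ (Q ⊔ G) = Q ⊔ (R ⊓ G)` for `Q ≤ R`.
Chains with all terms `≤ Q ⊔ G` give the first summand. For the other chains let `R` be the smallest
term with `¬ R ≤ Q ⊔ G`. If `R ⊓ (Q ⊔ G) ≠ Q` toggle `R ⊓ (Q ⊔ G)` (A1; it contains all smaller
terms, it is `> Q`, and it is normalised by `nrm C` because `Q`, `R` are in `C` and `G` is normal;
`R` remains the smallest term of its kind). If `R ⊓ (Q ⊔ G) = Q` then `R ⊓ G ≤ Q ⊓ G = ⊥`, `R` is the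
second term of `C`, and `C = insert Q C'` with `C'` a chain with smallest term `Q' = R`; conversely,
if `Q < Q'` and `Q' ⊓ G = ⊥` then `¬ Q' ≤ Q ⊔ G`, as otherwise `Q' = Q ⊔ (Q' ⊓ G) = Q`. -/
def A10_stmt : Prop :=
  ∀ (Γ : Type) [Group Γ] [Finite Γ] (p : ℕ) [Fact p.Prime] (G L Q M : Subgroup Γ)
    (g : Subgroup Γ → ℤ), G.Normal → IsPGroup p Q → Q ⊓ G = ⊥ →
    cSum p L Q M g = cSum p (L ⊓ (Q ⊔ G)) Q M g -
      ∑ᶠ Q' ∈ {Q' : Subgroup Γ | Q < Q' ∧ Q' ≤ L ∧ IsPGroup p Q' ∧ Q' ⊓ G = ⊥},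
        cSum p L Q' (M ⊓ nz Q) g

/-- A11. Chains in `Q × C_G(Q)` which start with `Q`. (The map `R ↦ Q ⊔ R` from the `p`-subgroups of
`G ⊓ cz Q` to the `p`-subgroups between `Q` and `cz Q ⊓ (Q ⊔ G)` is a bijection with inverse
`P ↦ P ⊓ G`, and preserves `≤` in both directions. The normaliser of a chain which contains `Q` is
contained in `nz Q = cz Q` (A9), and an element of `cz Q` normalises `Q ⊔ R` iff it normalises
`R = (Q ⊔ R) ⊓ G`.) -/
def A11_stmt : Prop :=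
  ∀ (Γ : Type) [Group Γ] [Finite Γ] (p : ℕ) [Fact p.Prime] (G Q M : Subgroup Γ)
    (g : Subgroup Γ → ℤ), G.Normal → (∀ x y : Γ, x * y * x⁻¹ * y⁻¹ ∈ G) → IsPGroup p Q →
    Q ⊓ G = ⊥ →
    cSum p (cz Q ⊓ (Q ⊔ G)) Q M g = cSum p (G ⊓ cz Q) ⊥ (M ⊓ cz Q) g

/-- A12. Decomposition of the chains of `Γ`. Let `T Q = cSum p ⊤ Q ⊤ g` for a `p`-subgroup `Q` with
`Q ⊓ G = ⊥`. By A3, A9, A10 (for `L = cz Q`) and A11:
`T Q = cSum p (G ⊓ cz Q) ⊥ (cz Q) g - ∑_{Q'} cSum p (cz Q) Q' (nz Q) g`, and the summand is `T Q'`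
(A3 and A9 twice: `nz Q' = cz Q' ≤ cz Q = nz Q`, and `nrm C ≤ nz Q'` for `Q' ∈ C`). Hence `T Q = 0`
for `Q ≠ ⊥` by induction on `|Γ| - |Q|`, and `T ⊥ = cSum p G ⊥ ⊤ g`. -/
def A12_stmt : Prop :=
  ∀ (Γ : Type) [Group Γ] [Finite Γ] (p : ℕ) [Fact p.Prime] (G : Subgroup Γ)
    (g : Subgroup Γ → ℤ), G.Normal → (∀ x y : Γ, x * y * x⁻¹ * y⁻¹ ∈ G) →
    (∀ Q : Subgroup Γ, IsPGroup p Q → Q ≠ ⊥ → Q ⊓ G = ⊥ → cSum p (G ⊓ cz Q) ⊥ (cz Q) g = 0) →
    cSum p ⊤ ⊥ ⊤ g = cSum p G ⊥ ⊤ g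

/-- A13. Radical chains and the largest term. (The largest term `P` of a radical chain `C`:
`IsOp p (nrm C) P`, for `C = {O_p(Γ)}` as well; every term is `≤ P`, so centralised by `cz P`.) -/
def A13_stmt : Prop :=
  ∀ (Γ : Type) [Group Γ] [Finite Γ] (p : ℕ) [Fact p.Prime] (C : Finset (Subgroup Γ)),
    IsRadical p C → ∃ P ∈ C, (∀ Q ∈ C, Q ≤ P) ∧ IsPGroup p P ∧ P ≤ nrm C ∧ nrm C ≤ nz P ∧
      cz P ≤ nrm C

/-- A14. Transport of `O_p` along an injective homomorphism, and special cases. (Every subgroup of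
`H.map i` is an image; `P.map i ≤ nz (Q.map i)` iff `P ≤ nz Q`.) -/
def A14_stmt : Prop :=
  ∀ (K Γ : Type) [Group K] [Group Γ] (p : ℕ) (i : K →* Γ), Function.Injective i →
    (∀ H P : Subgroup K, IsOp p H P ↔ IsOp p (H.map i) (P.map i)) ∧
    (IsOp p (⊤ : Subgroup K) ⊥ ↔ IsOp p i.range ⊥) ∧
    (∀ L : Subgroup Γ, IsOp p (⊤ : Subgroup L) ⊥ ↔ IsOp p L ⊥)

end Pool.Agent.DI
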