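import Mathlib
import Pool.Agent.helper81.DI.Defs

/-!
# Project di (MP_baa4d7_al), part B: characters, Clifford theory for cyclic quotients

Rules: see `SpecA.lean`. Proved and useful (all for the same definition of `Irr`):
`Pool/Agent/helper12/DD/Spec.lean`: CPL (completeness), NRM, IRF, INC, INT, DVD (degrees divide the
order), TRI; `Pool/Agent/helper49/Blocks2.lean`: `orth`, `linInd_Irr`;
`Pool/Agent/helper58/DC/Spec1.lean`: IRF, IRT, IF, TI, OI, OM, IM, SN, NM.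
-/

set_option autoImplicit false

namespace Pool.Agent.DI

open Pool.Agent.helper58.DC

/-- B0. Facts on `CycQ`. (Commutators: the classes of `x` and `y` are powers of the class of `s`.
Subgroups: `N / (N ⊓ G')` embeds in the cyclic group `Γ / G'`. The quotient `H ⧸ K` is generated by
the class of `s`. Extensions: `E / inc G` is isomorphic to `A`.) -/
def B0_stmt : Prop :=
  (∀ (Γ : Type) [Group Γ] (G' : Subgroup Γ), CycQ G' → ∀ x y : Γ, x * y * x⁻¹ * y⁻¹ ∈ G') ∧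
  (∀ (Γ : Type) [Group Γ] [Finite Γ] (G' N : Subgroup Γ), CycQ G' → CycQ (G'.subgroupOf N)) ∧
  (∀ (Γ : Type) [Group Γ] (G' : Subgroup Γ) [G'.Normal], CycQ G' ↔ IsCyclic (Γ ⧸ G')) ∧
  (∀ (G E A : Type) [Group G] [Group E] [Group A] (X : Extension G E A), IsCyclic A →
    CycQ X.inc.range)

open Classical in
/-- B1. Basic facts on irreducible characters. (`Pool/Agent/helper12/DD/Spec.lean`: IRF, DVD, INC,
and `Pool/Agent/helper49/Blocks2.lean`: `orth`.) -/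
def B1_stmt : Prop :=
  ∀ (H : Type) [Group H] [Finite H], (Irr H).Finite ∧ ∀ χ ∈ Irr H,
    (∃ n : ℕ, 0 < n ∧ χ 1 = n ∧ n ∣ Nat.card H) ∧ (∀ g h, χ (h * g * h⁻¹) = χ g) ∧
    (∀ g, IsIntegral ℤ (χ g)) ∧
    ∀ ψ ∈ Irr H, ∑ᶠ g : H, χ g * ψ g⁻¹ = if χ = ψ then (Nat.card H : ℂ) else 0

open Classical in
/-- B2. The same for subgroups: characters of a subgroup `L` of `H`, extended by zero. (Restrict to
`L`, apply B1 to the group `L`.) -/
def B2_stmt : Prop :=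
  ∀ (H : Type) [Group H] [Finite H] (L : Subgroup H), (IrrOn L).Finite ∧ ∀ χ ∈ IrrOn L,
    (∃ n : ℕ, 0 < n ∧ χ 1 = n ∧ n ∣ Nat.card L) ∧ (∀ g, ∀ h ∈ L, χ (h * g * h⁻¹) = χ g) ∧
    (∀ g, IsIntegral ℤ (χ g)) ∧ (∀ g, g ∉ L → χ g = 0) ∧
    ∀ ψ ∈ IrrOn L, ∑ᶠ g : H, χ g * ψ g⁻¹ = if χ = ψ then (Nat.card L : ℂ) else 0

/-- B3. Restriction to a subgroup. Let `m ψ` be the dimension of the space of intertwining maps
between the restriction and the representation of `ψ`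
(`Representation.card_inv_mul_sum_char_mul_char_eq_finrank`), so that
`|L| m ψ = ∑_{x ∈ L} χ x * ψ x⁻¹` (or with `x`, `x⁻¹` exchanged). The class function
`χ - ∑ m ψ ψ` of `L` is orthogonal to `Irr L`, so it is zero (CPL of helper12). -/
def B3_stmt : Prop :=
  ∀ (H : Type) [Group H] [Finite H] (L : Subgroup H), ∀ χ ∈ Irr H, ∃ m : (H → ℂ) → ℕ,
    ∀ x ∈ L, χ x = ∑ᶠ ψ ∈ IrrOn L, (m ψ : ℂ) * ψ x

/-- B4. Multiplication formula. (`T = ∑_t ρ(t y t⁻¹)` commutes with all `ρ(h)`, so it is a scalar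
by Schur, `|H| χ(y) / χ(1)` by the trace; take the trace of `ρ(x) T`.) -/
def B4_stmt : Prop :=
  ∀ (H : Type) [Group H] [Finite H], ∀ χ ∈ Irr H, ∀ x y : H,
    χ 1 * ∑ᶠ t : H, χ (x * (t * y * t⁻¹)) = (Nat.card H : ℂ) * χ x * χ y

/-- B5. The linear characters of the cyclic group `H / K`. (`Λ = (H ⧸ K) →* ℂˣ`; duality of
finite commutative groups: `CommGroup.monoidHom_mulEquiv_of_hasEnoughRootsOfUnity`,
`CommGroup.exists_apply_ne_one_of_hasEnoughRootsOfUnity`; the sum over `Λ` at `x ∉ K` is multiplied by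
`l λ₀ x ≠ 1` for a suitable `λ₀`.) -/
def B5_stmt : Prop :=
  ∀ (H : Type) [Group H] [Finite H] (K : Subgroup H), CycQ K →
    ∃ (Λ : Type) (_ : CommGroup Λ) (_ : Finite Λ) (l : Λ →* (H →* ℂˣ)), Function.Injective l ∧
      Nat.card Λ * Nat.card K = Nat.card H ∧ (∀ a, ∀ x ∈ K, l a x = 1) ∧
      ∀ x, x ∉ K → ∑ᶠ a : Λ, ((l a x : ℂˣ) : ℂ) = 0

/-- B6. The product of an irreducible character and a linear character. -/
def B6_stmt : Prop :=
  ∀ (H : Type) [Group H] [Finite H], ∀ φ ∈ Irr H, ∀ l : H →* ℂˣ,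
    (fun x => ((l x : ℂˣ) : ℂ) * φ x) ∈ Irr H

/-- B7. An invariant irreducible character of `K` extends to `H` if `H / K` is cyclic.
Proof: let `ρ : K → GL(V)` afford `ψ` and let `s` generate `H` modulo `K`, `m = |H : K|`. As the
character of `n ↦ ρ(s n s⁻¹)` is that of `ρ`, there is an invertible `T` with
`T ρ(n) T⁻¹ = ρ(s n s⁻¹)` (irreducible representations with the same character are isomorphic:
orthogonality gives a nonzero intertwining map). Then `T^m ρ(n) T^{-m} = ρ(s^m) ρ(n) ρ(s^m)⁻¹`, so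
`T^m` is a scalar times `ρ(s^m)` (Schur), and we may rescale `T` such that `T^m = ρ(s^m)`. Note also
`T ρ(s^m) T⁻¹ = ρ(s^m)`. The map `K ⋊ ℤ → GL(V)`, `(n, j) ↦ ρ(n) T^j`, is a homomorphism whose
kernel contains the kernel `{(s^{-mk}, mk)}` of the surjection `K ⋊ ℤ → H`, `(n, j) ↦ n s^j`.
So it factors through `H` and extends `ρ`; the extension is irreducible as its restriction is. -/
def B7_stmt : Prop :=
  ∀ (H : Type) [Group H] [Finite H] (K : Subgroup H), CycQ K → ∀ ψ ∈ IrrOn K,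
    (∀ h : H, funMap (MulAut.conj h) ψ = ψ) → ∃ φ ∈ Irr H, ∀ x ∈ K, φ x = ψ x

/-- B8. Inner products of restrictions to `K`. (Sum
`∑_{x ∈ H} (∑_{a ∈ Λ} l a x) φ x φ' x⁻¹ = |Λ| ∑_{x ∈ K} φ x φ' x⁻¹` in the other order and use
B6 and orthogonality (B1); `|H| = |Λ| |K|`.) -/
def B8_stmt : Prop :=
  ∀ (H : Type) [Group H] [Finite H] (K : Subgroup H) (Λ : Type) [CommGroup Λ] [Finite Λ]
    (l : Λ →* (H →* ℂˣ)), Nat.card Λ * Nat.card K = Nat.card H → (∀ a, ∀ x ∈ K, l a x = 1) →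
    (∀ x, x ∉ K → ∑ᶠ a : Λ, ((l a x : ℂˣ) : ℂ) = 0) → ∀ φ ∈ Irr H, ∀ φ' ∈ Irr H,
    ∑ᶠ x ∈ (K : Set H), φ x * φ' x⁻¹ =
      (Nat.card K : ℂ) * Nat.card {a : Λ // ∀ x, ((l a x : ℂˣ) : ℂ) * φ x = φ' x}

/-- B9a. Induction. (The left side `F` is a class function of `H`, and
`∑_x F x * φ x⁻¹ = (|H| / |S|) ∑_x θ x * φ x⁻¹ = |H| m φ`, where `m φ` is the coefficient of `θ` in the
restriction of `φ` to `S` (B3 and orthogonality in `S`, B2). So `F = ∑ m φ φ` by completeness, CPL.) -/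
def B9a_stmt : Prop :=
  ∀ (H : Type) [Group H] [Finite H] (S : Subgroup H), ∀ θ ∈ IrrOn S, ∃ m : (H → ℂ) → ℕ,
    ∀ x, (Nat.card S : ℂ)⁻¹ * ∑ᶠ t : H, θ (t⁻¹ * x * t) = ∑ᶠ φ ∈ Irr H, (m φ : ℂ) * φ x

/-- B9b. A character over `ψ`. Let `S = stF ⊤ ψ ≥ K`. By B7 (for the group `S`, B0) there is
`θ ∈ IrrOn S` which agrees with `ψ` on `K`. Let `F` be as in B9a. For `x ∈ K` we have
`F x = |S|⁻¹ ∑_t ψ (t⁻¹ x t)`, the sum of the distinct conjugates of `ψ`. Write `F = ∑ m φ φ` and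
the restrictions to `K` as `∑ r_φ(ψ') ψ'` (B3). Comparing coefficients (orthogonality in `K`, B2)
`∑_φ m φ r_φ(ψ')` is `1` if `ψ'` is a conjugate of `ψ`, and `0` otherwise. Take `φ` with `m φ > 0`
(`F 1 ≠ 0`). Then `r_φ(ψ') = 0` if `ψ'` is not a conjugate of `ψ`, `r_φ(ψ') ≤ 1`, and `r_φ` is
constant on the conjugates of `ψ` and not `0` as `φ 1 ≠ 0`; so `r_φ(ψ') = 1` for all
conjugates. -/
def B9b_stmt : Prop :=
  ∀ (H : Type) [Group H] [Finite H] (K : Subgroup H), CycQ K → ∀ ψ ∈ IrrOn K,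
    ∃ φ ∈ Irr H, OverP K ⊤ φ ψ

/-- B9. Clifford theory for cyclic quotients. Take `Λ`, `l` from B5.
(1) By B3 the restriction of `φ` to `K` is `∑ r(ψ) ψ` with some `r(ψ) > 0` (`φ 1 ≠ 0`); let `φ₁`
be over `ψ` (B9b). Then `∑_{x ∈ K} φ₁ x * φ x⁻¹ ≠ 0` (orthogonality in `K`; the inner product is
`|K|` times the sum of the `r(ψ')` over the conjugates), so by B8 `φ = l a · φ₁` for some `a`, and
`φ`, `φ₁` agree on `K`.
(2) By the same argument the `φ` over `ψ` are the `l a · φ₁`, and by B8 and orthogonality the number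
of `a` with `l a · φ₁ = φ₁` is the number of conjugates of `ψ`, which is `|H| / |stF ⊤ ψ|`. So
their number is `|Λ| |stF ⊤ ψ| / |H| = |stF ⊤ ψ| / |K|`.
(3) Distinct elements of `IrrOn K` are linearly independent (orthogonality). -/
def B9_stmt : Prop :=
  ∀ (H : Type) [Group H] [Finite H] (K : Subgroup H), CycQ K →
    (∀ φ ∈ Irr H, ∃ ψ ∈ IrrOn K, OverP K ⊤ φ ψ) ∧
    (∀ ψ ∈ IrrOn K, Nat.card {φ : H → ℂ // φ ∈ Irr H ∧ OverP K ⊤ φ ψ} * Nat.card K =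
      Nat.card (stF (⊤ : Subgroup H) ψ)) ∧
    (∀ φ : H → ℂ, ∀ ψ ∈ IrrOn K, ∀ ψ' ∈ IrrOn K, OverP K ⊤ φ ψ → OverP K ⊤ φ ψ' →
      ∃ n : H, ψ' = funMap (MulAut.conj n) ψ)

/-- B10. The same inside a group `Γ`: B9 for the group `N` and its subgroup
`G'.subgroupOf N` (B0); functions on `Γ` supported on `N` correspond to functions on `N`, see
`IrrOn`. -/
def B10_stmt : Prop :=
  ∀ (Γ : Type) [Group Γ] [Finite Γ] (G' N : Subgroup Γ), CycQ G' →
    (∀ φ ∈ IrrOn N, ∃ ψ ∈ IrrOn (N ⊓ G'), OverP (N ⊓ G') N φ ψ) ∧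
    (∀ ψ ∈ IrrOn (N ⊓ G'), Nat.card {φ : Γ → ℂ // φ ∈ IrrOn N ∧ OverP (N ⊓ G') N φ ψ} *
      Nat.card (N ⊓ G' : Subgroup Γ) = Nat.card (stF N ψ)) ∧
    (∀ φ : Γ → ℂ, ∀ ψ ∈ IrrOn (N ⊓ G'), ∀ ψ' ∈ IrrOn (N ⊓ G'), OverP (N ⊓ G') N φ ψ →
      OverP (N ⊓ G') N φ ψ' → ∃ n ∈ N, ψ' = funMap (MulAut.conj n) ψ)

/-- B11. Central characters, `φ` over `ψ`. (For `g ∈ G'` the class of `g` is contained in `G'`, and
`φ` vanishes outside `N`. Each `ψ' = funMap (conj n) ψ` vanishes outside `N ⊓ G'` and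
`∑_{x ∈ conjugatesOf g} ψ' x = ∑_{x ∈ conjugatesOf g} ψ x`, `ψ' 1 = ψ 1`; so numerator and denominator of
`omega φ g` are those of `omega ψ g` times the number of conjugates, a positive number.) -/
def B11_stmt : Prop :=
  ∀ (Γ : Type) [Group Γ] [Finite Γ] (G' N : Subgroup Γ), G'.Normal → ∀ φ ∈ IrrOn N,
    ∀ ψ ∈ IrrOn (N ⊓ G'), OverP (N ⊓ G') N φ ψ → ∀ g ∈ G', omega φ g = omega ψ g

open Classical in
/-- B12. Weighted count. Let `r = rr G' N ψ`; `|stF N ψ| = r |N ⊓ G'|` (`N ⊓ G' ≤ stF N ψ`). Count the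
pairs `(φ, ψ)` with `φ` over `ψ`: every `φ` is over exactly `|N| / |stF N ψ|` characters `ψ`, the
conjugates of one of them (B10 (1), (3)), every `ψ` is under exactly `r` characters `φ` (B10 (2)).
`φ 1 = (|N| / |stF N ψ|) ψ 1`, so `Defect p N φ d` iff `Defect p (N ⊓ G') ψ (d - v_p(r))`
(`v_p|N| = v_p(|N| / |stF|) + v_p(r) + v_p|N ⊓ G'|`); `Cov` for `φ` and for `ψ` are equivalent (B11).
Hence `|N| · #{φ} = |N| ∑_ψ r |stF N ψ| / |N| = |N ⊓ G'| ∑_ψ r ^ 2`. (`rr` is constant on the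
conjugates of `ψ`.) -/
def B12_stmt : Prop :=
  ∀ (Γ : Type) [Group Γ] [Finite Γ] (p : ℕ) [Fact p.Prime] (M : Ideal (integralClosure ℤ ℂ))
    (G' N : Subgroup Γ), CycQ G' → ∀ (τ : Γ → ℂ) (d : ℤ),
    gfun p M G' τ d N = (Nat.card (N ⊓ G' : Subgroup Γ) : ℤ) *
      ∑ᶠ ψ ∈ {ψ : Γ → ℂ | ψ ∈ IrrOn (N ⊓ G') ∧ Cov M G' τ ψ ∧
        Defect p (N ⊓ G') ψ (d - padicValNat p (rr G' N ψ))}, ((rr G' N ψ : ℤ) ^ 2)

/-- B13. Transport of characters along an injective homomorphism. (The restriction of `ext0 i ψ` to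
`N.map i ≃* N` is the restriction of `ψ`; `Function.extend`.) -/
def B13_stmt : Prop :=
  ∀ (K Γ : Type) [Group K] [Finite K] [Group Γ] [Finite Γ] (p : ℕ) (i : K →* Γ),
    Function.Injective i → ∀ (N : Subgroup K),
    (∀ ψ : K → ℂ, (∀ k, ext0 i ψ (i k) = ψ k) ∧ (∀ x, x ∉ i.range → ext0 i ψ x = 0)) ∧
    (∀ ψ : K → ℂ, ψ ∈ IrrOn N ↔ ext0 i ψ ∈ IrrOn (N.map i)) ∧
    (∀ φ ∈ IrrOn (N.map i), ∃ ψ : K → ℂ, ext0 i ψ = φ) ∧
    (∀ ψ ψ' : K → ℂ, ext0 i ψ = ext0 i ψ' → ψ = ψ') ∧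
    (∀ (ψ : K → ℂ) (d : ℤ), Defect p N ψ d ↔ Defect p (N.map i) (ext0 i ψ) d) ∧
    (∀ (ψ : K → ℂ) (α : MulAut K) (m : Γ), (∀ k, i (α k) = m * i k * m⁻¹) →
      funMap (MulAut.conj m) (ext0 i ψ) = ext0 i (funMap α ψ))

/-- B14. Transport of chains. (`m ∈ nz (P.map i)` iff `(P.map i).map (conj m) = P.map i` iff
`(P.map α).map i = P.map i` iff `P.map α = P`. For the last item: `P.map α ∈ C` has the order of `P`
and is comparable with `P`.) -/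
def B14_stmt : Prop :=
  ∀ (K Γ : Type) [Group K] [Finite K] [Group Γ] [Finite Γ] (i : K →* Γ), Function.Injective i →
    ∀ (C : Finset (Subgroup K)), (cmap i C).card = C.card ∧
    (C.Nonempty → (nrm C).map i = i.range ⊓ nrm (cmap i C)) ∧
    (∀ (α : MulAut K) (m : Γ), (∀ k, i (α k) = m * i k * m⁻¹) →
      IsChain (· ≤ ·) (C : Set (Subgroup K)) → (m ∈ nrm (cmap i C) ↔ chainMap α C = C))

end Pool.Agent.DI
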