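import Mathlib
import Pool.Agent.helper81.DI.SpecA
import Pool.Agent.helper81.DI.SpecB

/-!
# Project di (MP_baa4d7_al), part C: blocks

Rules: see `SpecA.lean`. In this part `M` is a maximal ideal of the ring of algebraic integers with
`p ∈ M`. An element `∑ z(x) x` of the group algebra is given by its coefficient function `z`;
`cc ψ z = (∑ z x * ψ x) / ψ 1` is the value of the central character, `cv` is the product.
-/

set_option autoImplicit false

namespace Pool.Agent.DI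

open Pool.Agent.helper58.DC

/-- C1. Congruences modulo `M`. (`n` prime to `p` and in `M` would give `1 ∈ M`; a maximal ideal is
prime; inverses modulo `M`.) -/
def C1_stmt : Prop :=
  ∀ (p : ℕ) [Fact p.Prime] (M : Ideal (integralClosure ℤ ℂ)), M.IsMaximal →
    (p : integralClosure ℤ ℂ) ∈ M →
    (∀ a, Mcong M a a) ∧ (∀ a b, Mcong M a b → Mcong M b a) ∧
    (∀ a b c, Mcong M a b → Mcong M b c → Mcong M a c) ∧
    (∀ a b c d, Mcong M a b → Mcong M c d → Mcong M (a + c) (b + d) ∧ Mcong M (a - c) (b - d)) ∧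
    (∀ a b c, IsIntegral ℤ c → Mcong M a b → Mcong M (c * a) (c * b)) ∧
    (∀ a b, IsIntegral ℤ a → IsIntegral ℤ b → Mcong M (a * b) 0 → Mcong M a 0 ∨ Mcong M b 0) ∧
    (∀ n : ℕ, Mcong M n 0 ↔ p ∣ n) ∧
    (∀ a, IsIntegral ℤ a → ¬ Mcong M a 0 → ∃ b, IsIntegral ℤ b ∧ Mcong M (a * b) 1) ∧
    (∀ a b, Mcong M a b → IsIntegral ℤ b → IsIntegral ℤ a) ∧
    (∀ (ι : Type) (s : Finset ι) (f g : ι → ℂ), (∀ i ∈ s, Mcong M (f i) (g i)) →
      Mcong M (∑ i ∈ s, f i) (∑ i ∈ s, g i))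

open Classical in
/-- C2. The centre of the group ring as a commutative ring. (`R` = centre of
`MonoidAlgebra (integralClosure ℤ ℂ) Γ`; `j a` is the coefficient function.) -/
def C2_stmt : Prop :=
  ∀ (Γ : Type) [Group Γ] [Finite Γ], ∃ (R : Type) (_ : CommRing R) (j : R → (Γ → ℂ)),
    Function.Injective j ∧ (∀ z, IsZO z ↔ ∃ a, j a = z) ∧ (∀ a b, j (a * b) = cv (j a) (j b)) ∧
    (∀ a b, j (a + b) = j a + j b) ∧ (j 1 = fun x => if x = 1 then 1 else 0)

open Classical in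
/-- C3. Integrality and the values on class sums. (First item: `z` is constant on the `L`-classes
and `(∑_{x ∈ S} ψ x) / ψ 1` is integral for an `L`-class `S` in `L`: INT of helper12 for the
group `L`. The second item is trivial. Third item: `cc ψ z = ∑ z(g_K) omega ψ g_K` over representatives
of the classes of `Γ`; no assumption on `ψ`, `χ`. Last item: as INT, or from the first.) -/
def C3_stmt : Prop :=
  ∀ (Γ : Type) [Group Γ] [Finite Γ],
    (∀ (L : Subgroup Γ), ∀ ψ ∈ IrrOn L, ∀ z : Γ → ℂ, (∀ l ∈ L, ∀ x, z (l * x * l⁻¹) = z x) →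
      (∀ x, IsIntegral ℤ (z x)) → IsIntegral ℤ (cc ψ z)) ∧
    (∀ (ψ : Γ → ℂ) (g : Γ), omega ψ g = cc ψ (fun x => if x ∈ conjugatesOf g then 1 else 0) ∧
      IsZO (fun x : Γ => if x ∈ conjugatesOf g then (1 : ℂ) else 0)) ∧
    (∀ (p : ℕ) [Fact p.Prime] (M : Ideal (integralClosure ℤ ℂ)), M.IsMaximal →
      (p : integralClosure ℤ ℂ) ∈ M → ∀ ψ χ : Γ → ℂ, Induces M ψ χ → ∀ z, IsZO z →
        Mcong M (cc ψ z) (cc χ z)) ∧
    (∀ (L : Subgroup Γ), ∀ ψ ∈ IrrOn L, ∀ g, IsIntegral ℤ (omega ψ g))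

/-- C4. Multiplicativity. (`ψ 1 * ∑_g (cv z w) g * ψ g = ψ 1 * ∑_{x, y ∈ L} z x * w y * ψ (x * y)`;
replace `x` by `l x l⁻¹`, average over `l ∈ L` and use B4 for the group `L`. The last two items: for
class functions; the case `L = ⊤`, `IrrOn ⊤ = Irr` by TI of helper58.) -/
def C4_stmt : Prop :=
  ∀ (Γ : Type) [Group Γ] [Finite Γ],
    (∀ (L : Subgroup Γ), ∀ ψ ∈ IrrOn L, ∀ z w : Γ → ℂ, (∀ l ∈ L, ∀ x, z (l * x * l⁻¹) = z x) →
      (∀ x, x ∉ L → z x = 0) → (∀ x, x ∉ L → w x = 0) → cc ψ (cv z w) = cc ψ z * cc ψ w) ∧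
    (∀ z w : Γ → ℂ, IsZO z → IsZO w → IsZO (cv z w) ∧ cv z w = cv w z) ∧
    (∀ χ ∈ Irr Γ, ∀ z w : Γ → ℂ, IsZO z → cc χ (cv z w) = cc χ z * cc χ w)

/-- C5. Central elements supported outside the centraliser of a normal `p`-subgroup.
Proof: let `O` be the ring of algebraic integers, `A = O[H]`, `Z` its centre, `λ : Z → O/M` the
homomorphism `z ↦ cc ψ z mod M` (C3, C4), `𝔫` its kernel, a maximal ideal of `Z` containing `M`. `A` is
a finitely generated faithful `Z`-module, so `𝔫 A ≠ A` by Nakayama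
(`Submodule.exists_sub_one_mem_and_smul_eq_zero_of_fg_of_le_smul`). Let `S = A / 𝔫 A ≠ 0`; `p S = 0`,
and an element `z` of `Z` acts on `S` as any `a ∈ O` with `a ≡ cc ψ z`. `P` acts on `S` by left
multiplication and fixes some `t ≠ 0`: take `s ≠ 0`, the additive group generated by `P s` is a finite
`p`-group `≠ 0` on which `P` acts; the number of fixed points is divisible by `p`
(`IsPGroup.card_modEq_card_fixedPoints`). For `u ∈ P`, `x ∈ H` we have `u x u⁻¹ t = x (x⁻¹ u x) t = x t`.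
So in `z t = ∑ z(x) x t` the elements of an orbit of `P` acting by conjugation give the same summand;
the orbits in the support of `z` have length divisible by `p`. So `z t = 0`, `a t = 0`, and
`a ∈ M` (otherwise `a` is invertible modulo `M`). -/
def C5_stmt : Prop :=
  ∀ (H : Type) [Group H] [Finite H] (p : ℕ) [Fact p.Prime] (M : Ideal (integralClosure ℤ ℂ)),
    M.IsMaximal → (p : integralClosure ℤ ℂ) ∈ M → ∀ (P : Subgroup H), P.Normal → IsPGroup p P →
    ∀ ψ ∈ Irr H, ∀ z : H → ℂ, IsZO z → (∀ x ∈ cz P, z x = 0) → Mcong M (cc ψ z) 0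

/-- C5a. The same for subgroups. (C5 for the group `L` and its subgroup `P.subgroupOf L`.) -/
def C5a_stmt : Prop :=
  ∀ (Γ : Type) [Group Γ] [Finite Γ] (p : ℕ) [Fact p.Prime] (M : Ideal (integralClosure ℤ ℂ)),
    M.IsMaximal → (p : integralClosure ℤ ℂ) ∈ M → ∀ (P L : Subgroup Γ), P ≤ L → L ≤ nz P →
    IsPGroup p P → ∀ ψ ∈ IrrOn L, ∀ z : Γ → ℂ, (∀ l ∈ L, ∀ x, z (l * x * l⁻¹) = z x) →
    (∀ x, IsIntegral ℤ (z x)) → (∀ x ∈ cz P, z x = 0) → Mcong M (cc ψ z) 0

open Classical in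
/-- C6. The Brauer homomorphism. (`P` acts by simultaneous conjugation on the pairs `(x, y)` with
`x y = c`, the function `z x * w y` is invariant; the pairs which are not fixed lie in orbits of
length divisible by `p`, the fixed pairs are those with `x, y ∈ cz P`.) -/
def C6_stmt : Prop :=
  ∀ (Γ : Type) [Group Γ] [Finite Γ] (p : ℕ) [Fact p.Prime] (P : Subgroup Γ), IsPGroup p P →
    ∀ z w : Γ → ℂ, IsZO z → IsZO w → ∀ c ∈ cz P, ∃ a : ℂ, IsIntegral ℤ a ∧
      cv z w c = cv (fun x => if x ∈ cz P then z x else 0) (fun x => if x ∈ cz P then w x else 0) c +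
        p * a

/-- C7. Induced blocks are defined. Proof: write `z' x = z x` for `x ∈ cz P`, `z' x = 0` otherwise.
`cc ψ z ≡ cc ψ z'` by C5a for `z - z'`, the same for `w` and for `cv z w` (C4). By C6
`(cv z w)' - cv z' w' = p a` with an `L`-invariant function `a` with integral values, so
`cc ψ (cv z w)' ≡ cc ψ (cv z' w')` (C3), and this is `cc ψ z' * cc ψ w'` by C4 (`z'`, `w'` are supported
on `cz P ≤ L`; `cv z' w'` is supported on `cz P`; `z'` is `L`-invariant as `L ≤ nz P`). -/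
def C7_stmt : Prop :=
  ∀ (Γ : Type) [Group Γ] [Finite Γ] (p : ℕ) [Fact p.Prime] (M : Ideal (integralClosure ℤ ℂ)),
    M.IsMaximal → (p : integralClosure ℤ ℂ) ∈ M → ∀ (P L : Subgroup Γ), P ≤ L → L ≤ nz P →
    cz P ≤ L → IsPGroup p P → ∀ ψ ∈ IrrOn L, IsMult M ψ

/-- C8. Every homomorphism from the centre to `O / M` is a central character of `Irr Γ`. Proof:
otherwise for every `χ ∈ Irr Γ` there is `g` with `omega ψ g ≢ omega χ g`; let
`z_χ = (class sum of g) - (omega χ g) · 1`, so `cc χ z_χ = 0` and `¬ Mcong M (cc ψ z_χ) 0`. By induction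
over finite sets `T` of characters there is `z` with `IsZO z`, `cc χ z = 0` for `χ ∈ T` and
`¬ Mcong M (cc ψ z) 0` (products, C4 and `IsMult`, `M` is prime). For `T = Irr Γ` the class function `z`
satisfies `∑ z x * χ x = 0` for all `χ`, so `z = 0` by completeness (CPL of helper12, applied to
`x ↦ z x⁻¹`), a contradiction. -/
def C8_stmt : Prop :=
  ∀ (Γ : Type) [Group Γ] [Finite Γ] (p : ℕ) [Fact p.Prime] (M : Ideal (integralClosure ℤ ℂ)),
    M.IsMaximal → (p : integralClosure ℤ ℂ) ∈ M → ∀ ψ : Γ → ℂ, IsMult M ψ →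
    ∃ χ ∈ Irr Γ, Induces M ψ χ

/-- C9. Induced blocks from normalisers of radical chains are defined (A13, C7, C8). -/
def C9_stmt : Prop :=
  ∀ (Γ : Type) [Group Γ] [Finite Γ] (p : ℕ) [Fact p.Prime] (M : Ideal (integralClosure ℤ ℂ)),
    M.IsMaximal → (p : integralClosure ℤ ℂ) ∈ M → ∀ C : Finset (Subgroup Γ), IsRadical p C →
    ∀ ψ ∈ IrrOn (nrm C), ∃ χ ∈ Irr Γ, Induces M ψ χ

/-- C10. Blocks and `E`-invariant elements. Proof: suppose `omega b g ≢ omega χ g` for some `g`. Let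
`z = (class sum of g) - (omega b g) · 1`: `cc b z = 0`, `¬ Mcong M (cc χ z) 0`. For `e ∈ E` let
`z^e = funMap (X.act e) z`, and let `w` be the product of all `z^e` (in the commutative ring of C2;
`E` is finite). Then `cc b w = 0` (factor `e = 1`, C4), and `cc χ (z^e) = cc (funMap (X.act e⁻¹) χ) z`
is congruent to `cc χ z` (stability and C3), so `¬ Mcong M (cc χ w) 0`. But `w` is invariant under
`E`, so `cc b w` and `cc χ w` are the same combination, with integral coefficients, of the numbers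
`omega (ext0 X.inc b) g'` resp. `omega (ext0 X.inc χ) g'`, `g'` in `X.inc.range` (the class of
`X.inc g` in `E` is the image of the `E`-orbit of `g`). -/
def C10_stmt : Prop :=
  ∀ (G E A : Type) [Group G] [Group E] [Group A] [Finite G] [Finite E] (X : Extension G E A)
    (p : ℕ) [Fact p.Prime] (M : Ideal (integralClosure ℤ ℂ)), M.IsMaximal →
    (p : integralClosure ℤ ℂ) ∈ M → ∀ b ∈ Irr G, ∀ χ ∈ Irr G, Stable X M χ →
    (∀ g ∈ X.inc.range, Mcong M (omega (ext0 X.inc b) g) (omega (ext0 X.inc χ) g)) →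
    Induces M b χ

/-- C11. A block with a character of defect `0` has only one character. Proof: let
`|Γ| = p^a n`, `χ₀ 1 = p^a m`, `p ∤ n`. Let `z x = m * χ₀ x⁻¹`, `IsZO z`. Then
`cc χ₀ z = m |Γ| / χ₀ 1 = n` and, if `χ ≠ χ₀`, `cc χ z = 0` (orthogonality, B1). By C3
`n ≡ 0` modulo `M`, a contradiction (C1). -/
def C11_stmt : Prop :=
  ∀ (Γ : Type) [Group Γ] [Finite Γ] (p : ℕ) [Fact p.Prime] (M : Ideal (integralClosure ℤ ℂ)),
    M.IsMaximal → (p : integralClosure ℤ ℂ) ∈ M → ∀ χ ∈ Irr Γ, ∀ χ₀ ∈ Irr Γ,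
    Defect p (⊤ : Subgroup Γ) χ₀ 0 → Induces M χ χ₀ → χ = χ₀

/-- C12. A character of defect `0` has a class of defect `0` with a central character value not in
`M`. Proof: with `z`, `n`, `m` as in C11 `n = cc θ z = ∑ z(g_K) omega θ g_K` over representatives of
the classes, `z(g) = m θ(g⁻¹)`; so there is `g` with `omega θ g ∉ M` and `m θ(g⁻¹) ∉ M`. If `p`
divides `c = |C(g)| = |C(g⁻¹)|`: `n θ(g⁻¹) = m c · omega θ g⁻¹`
(as `omega θ y = |Γ| θ(y) / (|C(y)| θ(1))`), which is in `M` as `p ∣ c`; so `θ(g⁻¹) ∈ M`, a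
contradiction. -/
def C12_stmt : Prop :=
  ∀ (Γ : Type) [Group Γ] [Finite Γ] (p : ℕ) [Fact p.Prime] (M : Ideal (integralClosure ℤ ℂ)),
    M.IsMaximal → (p : integralClosure ℤ ℂ) ∈ M → ∀ θ ∈ Irr Γ,
    Defect p (⊤ : Subgroup Γ) θ 0 →
    ∃ x : Γ, ¬ p ∣ Nat.card (Subgroup.centralizer ({x} : Set Γ)) ∧ ¬ Mcong M (omega θ x) 0

/-- C13. A character of positive defect does not induce to a block of defect `0`. Proof: otherwise
`θ` has defect `0` (`θ` is in its own block; its degree divides `|Γ|`), take `x` from C12 and let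
`c = |C(x)|`. `omega ψ x ≡ omega θ x` is not in `M`. For `y` in `N` conjugate to `x` the order of
`C_N(y)` divides `c`, so grouping by `N`-classes
`c · omega ψ x = (|N| / ψ 1) ∑_j (c / |C_N(y_j)|) ψ(y_j)`, and `|N| / ψ 1` is an integer divisible
by `p` (defect `≥ 1`). So `c · omega ψ x ∈ M`, `c ∉ M`, and `omega ψ x ∈ M` (C1, C3), a
contradiction. -/
def C13_stmt : Prop :=
  ∀ (Γ : Type) [Group Γ] [Finite Γ] (p : ℕ) [Fact p.Prime] (M : Ideal (integralClosure ℤ ℂ)),
    M.IsMaximal → (p : integralClosure ℤ ℂ) ∈ M → ∀ (N : Subgroup Γ), ∀ ψ ∈ IrrOn N,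
    ∀ d : ℤ, 1 ≤ d → Defect p N ψ d → ∀ θ ∈ Irr Γ, Induces M ψ θ → PosDefect p M θ

/-- C14. A group with a character of defect `0` has no nontrivial normal `p`-subgroup. Proof: pass to
the group `N` (its subgroup `P.subgroupOf N` is normal). Take `x` from C12. If `x` centralises `P`
then `|P|` divides `|C(x)|`, so `P = ⊥`. Otherwise the class of `x` is disjoint from `cz P` and
C5 for its class sum says that `omega ψ x ∈ M`, a contradiction. -/
def C14_stmt : Prop :=
  ∀ (Γ : Type) [Group Γ] [Finite Γ] (p : ℕ) [Fact p.Prime] (M : Ideal (integralClosure ℤ ℂ)),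
    M.IsMaximal → (p : integralClosure ℤ ℂ) ∈ M → ∀ (N P : Subgroup Γ), P ≤ N → N ≤ nz P →
    IsPGroup p P → ∀ ψ ∈ IrrOn N, Defect p N ψ 0 → P = ⊥

/-- C15. Representatives of the blocks. (`Induces M` is an equivalence relation, IM of helper58;
`Irr Γ` is finite.) -/
def C15_stmt : Prop :=
  ∀ (Γ : Type) [Group Γ] [Finite Γ] (M : Ideal (integralClosure ℤ ℂ)),
    ∃ R : Finset (Γ → ℂ), (∀ b ∈ R, b ∈ Irr Γ) ∧
      ∀ ψ : Γ → ℂ, (∃ χ ∈ Irr Γ, Induces M ψ χ) → ∃! b, b ∈ R ∧ Induces M ψ b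

/-- C16. Congruence of central characters in a larger group. (For `g ∈ Γ` the set of all `k ∈ K` with
`i k` conjugate to `g` in `Γ` is a union of classes `S_j` of `K` and
`omega (ext0 i ψ) g = ∑_j omega ψ k_j`, `k_j ∈ S_j`; `ext0 i ψ 1 = ψ 1`.) -/
def C16_stmt : Prop :=
  ∀ (K Γ : Type) [Group K] [Finite K] [Group Γ] [Finite Γ] (p : ℕ) [Fact p.Prime]
    (M : Ideal (integralClosure ℤ ℂ)), M.IsMaximal → (p : integralClosure ℤ ℂ) ∈ M →
    ∀ (i : K →* Γ), Function.Injective i → ∀ ψ b : K → ℂ, Induces M ψ b →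
    ∀ g : Γ, Mcong M (omega (ext0 i ψ) g) (omega (ext0 i b) g)

end Pool.Agent.DI
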