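import Mathlib
import Pool.Agent.helper81.DI.SpecC
import Pool.Agent.helper58.DC.Spec2

/-!
# Project di (MP_baa4d7_al), part D: assembly

Rules: see `SpecA.lean`.
-/

set_option autoImplicit false

namespace Pool.Agent.DI

open Pool.Agent.helper58.DC

/-- D0. The alternating sums depend only on the block. (`Induces M ψ b ↔ Induces M ψ χ`, IM of
helper58, so the numbers `kC` are equal.) -/
def D0_stmt : Prop :=
  ∀ (G E A : Type) [Group G] [Group E] [Group A] [Finite G] (X : Extension G E A) (p : ℕ)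
    (M : Ideal (integralClosure ℤ ℂ)) (b χ : G → ℂ), Induces M b χ → ∀ (d : ℤ) (U : Subgroup A),
    altSum X p M b d U = altSum X p M χ d U

/-- D1. The alternating sum as a weighted sum over all radical chains. (The class of `C` has
`|G| / |nrm C|` elements, SN of helper58; `card`, `|nrm C|` and `kC` are constant on classes: the map
`ψ ↦ funMap (conj g) ψ` is a bijection of the sets counted by `kC` for `C` and for
`chainMap (conj g) C`, since `omega` is invariant under `conj g` and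
`X.stab (g C) (g ψ) = inc g * X.stab C ψ * (inc g)⁻¹` has the same image in `A`.
`C.card ≥ 1`, so `(-1)^(C.card - 1) = (-1)^(C.card + 1)`.) -/
def D1_stmt : Prop :=
  ∀ (G E A : Type) [Group G] [Group E] [Group A] [Finite G] (X : Extension G E A) (p : ℕ)
    (M : Ideal (integralClosure ℤ ℂ)), ∀ χ ∈ Irr G, ∀ (d : ℤ) (U : Subgroup A),
    (Nat.card G : ℤ) * altSum X p M χ d U = ∑ᶠ C ∈ {C : Finset (Subgroup G) | IsRadical p C},
      (-1) ^ (C.card + 1) * ((Nat.card (nrm C) : ℤ) * kC X p M χ d U C)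

/-- D2. Stabilisers in an embedded extension. Let `N = M' ⊓ nrm (cmap ε.i C)`. First item: B14 and
`ε.range`. Second item: for `m ∈ M'`, by `ε.act`, B13 and B14, `m ∈ stF N (ext0 ε.i ψ)` iff
`ε.π m ∈ Y.stab C ψ`. So `|stF N ..| = q |Y.stab C ψ|`. The kernel of `Y.proj` on `Y.stab C ψ` is
the image under `Y.inc` of `nrm C` (SN of helper58; `ψ` is fixed by `nrm C`, B2). So
`|Y.stab C ψ| = |(Y.stab C ψ).map Y.proj| |nrm C|`, and `|N ⊓ G'| = |nrm C|`. -/
def D2_stmt : Prop :=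
  ∀ (K E A Γ : Type) [Group K] [Group E] [Group A] [Group Γ] [Finite K] [Finite Γ]
    (Y : Extension K E A) (G' M' : Subgroup Γ) (q : ℕ) (ε : Emb Y G' M' q)
    (C : Finset (Subgroup K)), IsChain (· ≤ ·) (C : Set (Subgroup K)) → C.Nonempty →
    (M' ⊓ nrm (cmap ε.i C)) ⊓ G' = (nrm C).map ε.i ∧
    ∀ ψ ∈ IrrOn (nrm C), rr G' (M' ⊓ nrm (cmap ε.i C)) (ext0 ε.i ψ) =
      q * Nat.card ((Y.stab C ψ).map Y.proj)

/-- D3. The function `gfun` for an embedded extension. (B12 for `N = M' ⊓ nrm (cmap ε.i C)`; the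
elements of `IrrOn (N ⊓ G')` are the `ext0 ε.i ψ`, `ψ ∈ IrrOn (nrm C)`, with the same defects (D2, B13);
group the `ψ` by the subgroup `U = (Y.stab C ψ).map Y.proj` of `A`, D2.) -/
def D3_stmt : Prop :=
  ∀ (K E A Γ : Type) [Group K] [Group E] [Group A] [Group Γ] [Finite K] [Finite E] [Finite Γ]
    (Y : Extension K E A) (G' M' : Subgroup Γ) (q : ℕ) (ε : Emb Y G' M' q) (p : ℕ) [Fact p.Prime]
    (M : Ideal (integralClosure ℤ ℂ)), CycQ G' → ∀ (τ : Γ → ℂ) (d : ℤ)
    (C : Finset (Subgroup K)), IsChain (· ≤ ·) (C : Set (Subgroup K)) → C.Nonempty →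
    gfun p M G' τ d (M' ⊓ nrm (cmap ε.i C)) = (Nat.card (nrm C) : ℤ) *
      ∑ᶠ U : Subgroup A, ((q * Nat.card U : ℕ) : ℤ) ^ 2 *
        (Nat.card {ψ : K → ℂ // ψ ∈ IrrOn (nrm C) ∧
          Defect p (nrm C) ψ (d - padicValNat p (q * Nat.card U)) ∧ Cov M G' τ (ext0 ε.i ψ) ∧
          (Y.stab C ψ).map Y.proj = U} : ℤ)

open Classical in
/-- D4. Summation over the radical chains. Every `ψ ∈ IrrOn (nrm C)`, `C` radical, induces to the block
of exactly one `b ∈ R` (C9), and then `Cov` for `ext0 ε.i ψ` and for `ext0 ε.i b` are equivalent (C16,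
C1). So the number in D3 is the sum over the `b ∈ R` with `Cov` of
`kC Y p M b (d - padicValNat p (q * Nat.card U)) U C`. Exchange the (finite) sums and use D1. -/
def D4_stmt : Prop :=
  ∀ (K E A Γ : Type) [Group K] [Group E] [Group A] [Group Γ] [Finite K] [Finite E] [Finite Γ]
    (Y : Extension K E A) (G' M' : Subgroup Γ) (q : ℕ) (ε : Emb Y G' M' q) (p : ℕ) [Fact p.Prime]
    (M : Ideal (integralClosure ℤ ℂ)), M.IsMaximal → (p : integralClosure ℤ ℂ) ∈ M → CycQ G' →
    ∀ (τ : Γ → ℂ) (d : ℤ) (R : Finset (K → ℂ)), (∀ b ∈ R, b ∈ Irr K) →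
    (∀ ψ : K → ℂ, (∃ χ ∈ Irr K, Induces M ψ χ) → ∃! b, b ∈ R ∧ Induces M ψ b) →
    ∑ᶠ C ∈ {C : Finset (Subgroup K) | IsRadical p C},
      (-1) ^ (C.card + 1) * gfun p M G' τ d (M' ⊓ nrm (cmap ε.i C)) =
    ∑ b ∈ R, if Cov M G' τ (ext0 ε.i b) then
      ∑ᶠ U : Subgroup A, ((q * Nat.card U : ℕ) : ℤ) ^ 2 *
        ((Nat.card K : ℤ) * altSum Y p M b (d - padicValNat p (q * Nat.card U)) U) else 0

/-- D5. Blocks of defect zero. (All numbers `kC` are `0` by C13.) -/
def D5_stmt : Prop :=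
  ∀ (G E A : Type) [Group G] [Group E] [Group A] [Finite G] (X : Extension G E A) (p : ℕ)
    [Fact p.Prime] (M : Ideal (integralClosure ℤ ℂ)), M.IsMaximal →
    (p : integralClosure ℤ ℂ) ∈ M → ∀ b ∈ Irr G, ¬ PosDefect p M b → ∀ d : ℤ, 1 ≤ d →
    ∀ U : Subgroup A, altSum X p M b d U = 0

/-- D6. Characters of defect zero and blocks of positive defect. (All numbers `kC` are `0`: let
`ψ` be counted; the degree divides the order (B2), so `d = 0`. Let `P` be the largest term of the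
radical chain `C` (A13); by C14 `P = ⊥`, so `C = {⊥}`, `nrm C = ⊤`, `ψ ∈ Irr G`. There is
`χ' ∈ Irr G` in the block of `χ` with positive defect; by C11 `χ' = ψ`, a contradiction.) -/
def D6_stmt : Prop :=
  ∀ (G E A : Type) [Group G] [Group E] [Group A] [Finite G] (X : Extension G E A) (p : ℕ)
    [Fact p.Prime] (M : Ideal (integralClosure ℤ ℂ)), M.IsMaximal →
    (p : integralClosure ℤ ℂ) ∈ M → ∀ χ ∈ Irr G, PosDefect p M χ → ∀ d : ℤ, d ≤ 0 →
    ∀ U : Subgroup A, altSum X p M χ d U = 0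

/-- D7. The ordinary conjecture for `Γ`. Take `R` from C15 (for `Γ`). For a radical chain `C` of `Γ`
the number of `φ` in `gfun` is the sum over the `b ∈ R` with `Cov M G' τ b` of
`kC (trivE Γ) p M b d ⊤ C` (C9; `Cov` for `φ` and `b` are equivalent if `Induces M φ b`; the
condition on the stabiliser is empty as `Unit` has only one subgroup). So by D1 the sum is
`∑_b |Γ| altSum (trivE Γ) p M b d ⊤`, and every summand is `0`, by `Ord` or by D5. -/
def D7_stmt : Prop :=
  ∀ (Γ : Type) [Group Γ] [Finite Γ] (p : ℕ) [Fact p.Prime] (M : Ideal (integralClosure ℤ ℂ)),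
    M.IsMaximal → (p : integralClosure ℤ ℂ) ∈ M → Ord p M → IsOp p (⊤ : Subgroup Γ) ⊥ →
    ∀ (G' : Subgroup Γ) (τ : Γ → ℂ) (d : ℤ), 1 ≤ d →
    ∑ᶠ C ∈ {C : Finset (Subgroup Γ) | IsRadical p C},
      (-1) ^ (C.card + 1) * gfun p M G' τ d (nrm C) = 0

/-- D8. The trivial embedding. -/
def D8_stmt : Prop :=
  ∀ (G E A : Type) [Group G] [Group E] [Group A] (X : Extension G E A),
    ∃ ε : Emb X X.inc.range ⊤ 1, ε.i = X.inc

/-- D9. The extension given by the centraliser of `Q`. (By A9 (B0) `Q` is abelian, `Q ≤ cz Q`, and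
normal in `cz Q`. Take `E' = cz Q ⧸ Q`, `A' = cz Q ⧸ (Q ⊔ K)`, `K = X.inc.range ⊓ cz Q`, with the
conjugation action on `K`. `cz Q / K` embeds in `A`, `Q ⊓ K = ⊥`, so `A'` is cyclic and
`|Q| |A'| = |cz Q / K|` divides `|A|`.) -/
def D9_stmt : Prop :=
  ∀ (G E A : Type) [Group G] [Group E] [Group A] [Finite G] [Finite E] (X : Extension G E A),
    IsCyclic A → ∀ Q : Subgroup E, Q ≠ ⊥ → Q ⊓ X.inc.range = ⊥ →
    ∃ (E' A' : Type) (_ : Group E') (_ : Group A') (_ : Finite E')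
      (Y : Extension ↥(X.inc.range ⊓ cz Q) E' A') (ε : Emb Y X.inc.range (cz Q) (Nat.card Q)),
      ε.i = (X.inc.range ⊓ cz Q).subtype ∧ IsCyclic A' ∧ Nat.card A' < Nat.card A ∧
      Nat.card Q * Nat.card A' ∣ Nat.card A

/-- D10. Vanishing of the correction terms. Let `K = X.inc.range ⊓ cz Q`, `Y = O_p(K)` (A2). If
`Y ≠ ⊥` use A4 (`cz Q` normalises `K`, hence `Y`). If `Y = ⊥`: by A7, A8 (with `i = ε.i` from D9) the
sum is the left side of D4 for the embedding of D9 (`R` from C15 for `K`). In D4 every `altSum` on the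
right is `0`: put `e = d - padicValNat p (|Q| * |U|)`; `|Q| |U|` divides `|Q| |A'|`, which divides
`|A|`, so `e ≥ 1`. If the block of `b` has positive defect use `CycN` (`|A'| < |A|`, A14), otherwise
D5. -/
def D10_stmt : Prop :=
  ∀ (G E A : Type) [Group G] [Group E] [Group A] [Finite G] [Finite E] (X : Extension G E A)
    (p : ℕ) [Fact p.Prime] (M : Ideal (integralClosure ℤ ℂ)), M.IsMaximal →
    (p : integralClosure ℤ ℂ) ∈ M → IsCyclic A → CycN p M (Nat.card A) →
    ∀ (τ : E → ℂ) (d : ℤ), (padicValNat p (Nat.card A) : ℤ) + 1 ≤ d → ∀ Q : Subgroup E,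
    IsPGroup p Q → Q ≠ ⊥ → Q ⊓ X.inc.range = ⊥ →
    cSum p (X.inc.range ⊓ cz Q) ⊥ (cz Q) (gfun p M X.inc.range τ d) = 0

/-- D11. The relation. Let `Γ = E`, `G' = X.inc.range`, `τ = omega (ext0 X.inc χ)`,
`g = gfun p M G' τ d`. First `cSum p ⊤ ⊥ ⊤ g = 0`: if `O_p(E) ≠ ⊥` by A4; if `O_p(E) = ⊥` it is
`rSum p ⊤ ⊤ g` (A7), the left side of D7 (A8 with `i = id`). By A12 (hypothesis: D10; B0)
`cSum p G' ⊥ ⊤ g = 0`, and by A7, A14, A8 (`i = X.inc`) this is the left side of D4 for the embedding of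
D8 (`M' = ⊤`, `q = 1`; `R` from C15 for `G`). If `b ∈ R` and `Cov M G' τ (ext0 X.inc b)` then
`Induces M b χ` by C10; exactly one `b ∈ R` has this property, and it satisfies `Cov` (C16). By D0 the
right side of D4 is `|G|` times the left side below. -/
def D11_stmt : Prop :=
  ∀ (G E A : Type) [Group G] [Group E] [Group A] [Finite G] [Finite E] (X : Extension G E A)
    (p : ℕ) [Fact p.Prime] (M : Ideal (integralClosure ℤ ℂ)), M.IsMaximal →
    (p : integralClosure ℤ ℂ) ∈ M → IsCyclic A → IsOp p (⊤ : Subgroup G) ⊥ → Ord p M →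
    CycN p M (Nat.card A) → ∀ χ ∈ Irr G, Stable X M χ →
    ∀ d : ℤ, (padicValNat p (Nat.card A) : ℤ) + 1 ≤ d →
    ∑ᶠ U : Subgroup A, (Nat.card U : ℤ) ^ 2 *
      altSum X p M χ (d - padicValNat p (Nat.card U)) U = 0

/-- D12. Combinatorics of cyclic groups. Proof: otherwise let `e₀ ≥ 1` be the largest integer with
`a e₀ ⊤ ≠ 0`. For `e > e₀` the numbers `a e U` are all `0` (downward induction on `U`). Let
`α = v_p|A|`, `d = e₀ + α`. In the relation for `d` only the `U` with `v_p|U| = α` remain, these are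
the `U` which contain the Sylow subgroup `S` of `A`: `∑_{U ≥ S} |U|² a e₀ U = 0`. The left side is
`∑_{x, y ∈ A} ∑_{U ≥ ⟨S, x, y⟩} a e₀ U`, and by the first hypothesis the inner sum is `0` unless
`⟨S, x, y⟩ = ⊤`, when it is `a e₀ ⊤`. The number of such pairs is positive (`x` a generator), a
contradiction. -/
def D12_stmt : Prop :=
  ∀ (A : Type) [Group A] [Finite A] (p : ℕ) [Fact p.Prime], IsCyclic A →
    ∀ a : ℤ → Subgroup A → ℤ,
    (∀ e : ℤ, 1 ≤ e → ∀ U : Subgroup A, U ≠ ⊤ → ∑ᶠ V : {V : Subgroup A // U ≤ V}, a e V.1 = 0) →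
    (∀ d : ℤ, (padicValNat p (Nat.card A) : ℤ) + 1 ≤ d →
      ∑ᶠ U : Subgroup A, (Nat.card U : ℤ) ^ 2 * a (d - padicValNat p (Nat.card U)) U = 0) →
    (∃ D : ℤ, ∀ e, D < e → ∀ U, a e U = 0) → ∀ e : ℤ, 1 ≤ e → a e ⊤ = 0

/-- D13. Möbius inversion, zero form. (Downward induction on `U`.) -/
def D13_stmt : Prop :=
  ∀ (A : Type) [Group A] [Finite A] (a : Subgroup A → ℤ),
    (∀ U : Subgroup A, ∑ᶠ V : {V : Subgroup A // U ≤ V}, a V.1 = 0) → ∀ U, a U = 0

/-- D14. The induction step. Let `A` be cyclic of order `n` (smaller orders are in the hypothesis).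
For `U ≠ ⊤` the sum of the `altSum X p M χ d V`, `V ≥ U`, is `altSum (resE X U) p M χ d ⊤` (RE of
helper58), which is `0` by hypothesis. If the block of `χ` is not stable, `altSum X p M χ d ⊤ = 0` (ST
of helper58). If it is stable: `altSum X p M χ d ⊤ = 0` for `d ≥ 1` by D12 (with D11, and FN of
helper58 for the third hypothesis, there are finitely many `U`), and for `d ≤ 0` by D6. Now D13. -/
def D14_stmt : Prop :=
  ∀ (p : ℕ) [Fact p.Prime] (M : Ideal (integralClosure ℤ ℂ)), M.IsMaximal →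
    (p : integralClosure ℤ ℂ) ∈ M → Ord p M → ∀ n : ℕ, CycN p M n → CycN p M (n + 1)

/-- D15. The theorem. (`Ord → CycInv` by induction from D14. `CycInv → CycSum`: RE of helper58 and
`CycInv` for `resE X U`. `CycSum → Ord` and `CycInv → Ord`: `trivE G`, `U = ⊤`, `A = Unit`; the sum over
`V ≥ ⊤` has one term.) -/
def D15_stmt : Prop :=
  ∀ (p : ℕ) [Fact p.Prime] (M : Ideal (integralClosure ℤ ℂ)), M.IsMaximal →
    (p : integralClosure ℤ ℂ) ∈ M → (Ord p M ↔ CycInv p M) ∧ (Ord p M ↔ CycSum p M)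

end Pool.Agent.DI
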