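import Mathlib
import Pool.Agent.helper81.DI.Defs

/-!
# Project di (MP_baa4d7_al): the local form of the theorem, for the sections of one group
-/

set_option autoImplicit false

namespace Pool.Agent.DI

open Pool.Agent.helper58.DC

/-- `E'` is (isomorphic to) a section of `E`, a quotient of a subgroup of `E`. -/
def Sec (E' E : Type) [Group E'] [Group E] : Prop :=
  ∃ (H : Subgroup E) (f : H →* E'), Function.Surjective f

/-- The ordinary conjecture for the group `G`. -/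
def OrdAt (p : ℕ) (M : Ideal (integralClosure ℤ ℂ)) (G : Type) [Group G] : Prop :=
  IsOp p (⊤ : Subgroup G) ⊥ → ∀ χ ∈ Irr G, PosDefect p M χ →
    ∀ d : ℤ, altSum (trivE G) p M χ d ⊤ = 0

/-- The ordinary conjecture for all sections `G` of `E₀`. -/
def OrdS (p : ℕ) (M : Ideal (integralClosure ℤ ℂ)) (E₀ : Type) [Group E₀] : Prop :=
  ∀ (G : Type) [Group G] [Finite G], Sec G E₀ → OrdAt p M G

/-- The invariant conjecture for all extensions `1 → G → E → A → 1` with `A` cyclic and `E` a section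
of `E₀`. -/
def CycInvS (p : ℕ) (M : Ideal (integralClosure ℤ ℂ)) (E₀ : Type) [Group E₀] : Prop :=
  ∀ (G E A : Type) [Group G] [Group E] [Group A] [Finite G] [Finite E] (X : Extension G E A),
    Sec E E₀ → IsCyclic A → IsOp p (⊤ : Subgroup G) ⊥ → ∀ χ ∈ Irr G, PosDefect p M χ →
      ∀ (d : ℤ) (U : Subgroup A), altSum X p M χ d U = 0

/-- For every extension `1 → G → E → A → 1` with `E` a section of `E₀` and every cyclic subgroup `U` of
`A` the sum of the alternating sums over all subgroups which contain `U` vanishes. -/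
def CycSumS (p : ℕ) (M : Ideal (integralClosure ℤ ℂ)) (E₀ : Type) [Group E₀] : Prop :=
  ∀ (G E A : Type) [Group G] [Group E] [Group A] [Finite G] [Finite E] (X : Extension G E A),
    Sec E E₀ → IsOp p (⊤ : Subgroup G) ⊥ → ∀ χ ∈ Irr G, PosDefect p M χ →
      ∀ (d : ℤ) (U : Subgroup A), IsCyclic U →
        ∑ᶠ V : {V : Subgroup A // U ≤ V}, altSum X p M χ d V.1 = 0

/-- `CycInvS` for `A` of order `< n`. -/
def CycNS (p : ℕ) (M : Ideal (integralClosure ℤ ℂ)) (E₀ : Type) [Group E₀] (n : ℕ) : Prop :=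
  ∀ (G E A : Type) [Group G] [Group E] [Group A] [Finite G] [Finite E] (X : Extension G E A),
    Sec E E₀ → IsCyclic A → Nat.card A < n → IsOp p (⊤ : Subgroup G) ⊥ → ∀ χ ∈ Irr G,
      PosDefect p M χ → ∀ (d : ℤ) (U : Subgroup A), altSum X p M χ d U = 0

theorem Sec.refl (E : Type) [Group E] : Sec E E :=
  ⟨⊤, (⊤ : Subgroup E).subtype, fun x => ⟨⟨x, Subgroup.mem_top x⟩, rfl⟩⟩

theorem Sec.sub {E : Type} [Group E] (H : Subgroup E) : Sec H E :=
  ⟨H, MonoidHom.id H, Function.surjective_id⟩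

theorem Sec.trans {E₁ E₂ E₃ : Type} [Group E₁] [Group E₂] [Group E₃] (h : Sec E₁ E₂)
    (h' : Sec E₂ E₃) : Sec E₁ E₃ := by
  obtain ⟨H, f, hf⟩ := h
  obtain ⟨H', f', hf'⟩ := h'
  let L : Subgroup H' := H.comap f'
  have hL : ∀ x : (L.map H'.subtype : Subgroup E₃), ∃ y : L, H'.subtype y.1 = x.1 := by
    rintro ⟨x, hx⟩
    obtain ⟨y, hy, hyx⟩ := Subgroup.mem_map.1 hx
    exact ⟨⟨y, hy⟩, hyx⟩
  let e : L ≃* (L.map H'.subtype : Subgroup E₃) :=
    L.equivMapOfInjective H'.subtype H'.subtype_injective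
  let g : L →* E₁ := f.comp ((f'.comp L.subtype).codRestrict H fun x => x.2)
  refine ⟨L.map H'.subtype, g.comp e.symm.toMonoidHom, ?_⟩
  intro z
  obtain ⟨w, hw⟩ := hf z
  obtain ⟨v, hv⟩ := hf' w.1
  have hvL : v ∈ L := by
    change f' v ∈ H
    rw [hv]
    exact w.2
  refine ⟨e ⟨v, hvL⟩, ?_⟩
  change g (e.symm (e ⟨v, hvL⟩)) = z
  rw [MulEquiv.symm_apply_apply]
  change f ⟨f' v, _⟩ = z
  rw [← hw]
  congr 1
  exact Subtype.ext hv

end Pool.Agent.DI
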