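import Mathlib
import Pool.Agent.helper81.DI.SpecD

set_option autoImplicit false

namespace Pool.Agent.DI

open Pool.Agent.helper58.DC

open Classical in
theorem D12_sum {A : Type} [Group A] [Finite A] [Fintype (Subgroup A)] (f : Subgroup A → ℤ)
    (W : Subgroup A) :
    ∑ᶠ V : {V : Subgroup A // W ≤ V}, f V.1 = ∑ V : Subgroup A, if W ≤ V then f V else 0 := by
  have : Fintype {V : Subgroup A // W ≤ V} := Fintype.ofFinite _
  rw [finsum_eq_sum_of_fintype, ← Finset.sum_filter]
  refine (Finset.sum_subtype (Finset.univ.filter fun V => W ≤ V) (fun V => by simp) f).symm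

theorem D12_top {A : Type} [Group A] [Finite A] (f : Subgroup A → ℤ) :
    ∑ᶠ V : {V : Subgroup A // ⊤ ≤ V}, f V.1 = f ⊤ := by
  classical
  have : Fintype (Subgroup A) := Fintype.ofFinite _
  rw [D12_sum, Finset.sum_eq_single (⊤ : Subgroup A)]
  · simp
  · intro V _ hV
    rw [if_neg]
    intro h
    exact hV (top_le_iff.1 h)
  · intro h
    exact absurd (Finset.mem_univ _) h

theorem D12_sylow {A : Type} [CommGroup A] [Finite A] (p : ℕ) [Fact p.Prime] (S : Sylow p A)
    (U : Subgroup A) :
    padicValNat p (Nat.card U) = padicValNat p (Nat.card A) ↔ (S : Subgroup A) ≤ U := by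
  have hS : Nat.card S = p ^ padicValNat p (Nat.card A) := by
    rw [S.card_eq_multiplicity, Nat.factorization_def _ (Fact.out : p.Prime)]
  have hdvd : Nat.card U ∣ Nat.card A := Subgroup.card_subgroup_dvd_card U
  have hA : Nat.card A ≠ 0 := Nat.card_pos.ne'
  have hU : Nat.card U ≠ 0 := Nat.card_pos.ne'
  constructor
  · intro h
    obtain ⟨Q⟩ : Nonempty (Sylow p U) := inferInstance
    have hQ : Nat.card Q = p ^ padicValNat p (Nat.card U) := by
      rw [Q.card_eq_multiplicity, Nat.factorization_def _ (Fact.out : p.Prime)]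
    have hQp : IsPGroup p ((Q : Subgroup U).map U.subtype) := Q.2.map _
    obtain ⟨S', hS'⟩ := hQp.exists_le_sylow
    have hc : Nat.card ((Q : Subgroup U).map U.subtype) = Nat.card Q := by
      rw [Subgroup.card_map_of_injective U.subtype_injective]
    have hS'c : Nat.card S' = p ^ padicValNat p (Nat.card A) := by
      rw [S'.card_eq_multiplicity, Nat.factorization_def _ (Fact.out : p.Prime)]
    have heq : (Q : Subgroup U).map U.subtype = (S' : Subgroup A) := by
      refine Subgroup.eq_of_le_of_card_ge hS' ?_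
      rw [hc, hQ, h]
      exact hS'c.le
    have hSS : S = S' := by
      have : Subsingleton (Sylow p A) := by
        have hn : (S : Subgroup A).Normal := inferInstance
        have := Sylow.unique_of_normal S hn
        infer_instance
      exact Subsingleton.elim _ _
    rw [hSS, ← heq]
    exact Subgroup.map_subtype_le _
  · intro h
    refine le_antisymm ?_ ?_
    · exact (padicValNat_dvd_iff_le hA).1 ((pow_padicValNat_dvd).trans hdvd)
    · have h1 : Nat.card S ∣ Nat.card U := Subgroup.card_dvd_of_le h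
      rw [hS] at h1
      exact (padicValNat_dvd_iff_le hU).1 h1

theorem D12 (hD13 : D13_stmt) : D12_stmt := by
  classical
  intro A _ _ p _ hA a h1 h2 h3 e he
  by_contra hne
  have : Fintype A := Fintype.ofFinite A
  have : Fintype (Subgroup A) := Fintype.ofFinite _
  obtain ⟨D, hD⟩ := h3
  obtain ⟨e₀, ⟨he₀, hne₀⟩, hmax⟩ := Int.exists_greatest_of_bdd
    (P := fun z : ℤ => 1 ≤ z ∧ a z ⊤ ≠ 0)
    ⟨D, fun z hz => by
      by_contra hlt
      exact hz.2 (hD z (not_le.1 hlt) ⊤)⟩ ⟨e, he, hne⟩
  -- all numbers above e₀ vanish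
  have habove : ∀ e', e₀ < e' → ∀ U, a e' U = 0 := by
    intro e' he'
    refine hD13 A (a e') fun U => ?_
    by_cases hU : U = ⊤
    · subst hU
      rw [D12_top]
      by_contra hc
      exact absurd (hmax e' ⟨by omega, hc⟩) (by omega)
    · exact h1 e' (by omega) U hU
  set α := padicValNat p (Nat.card A) with hα
  have hcardA : Nat.card A ≠ 0 := Nat.card_pos.ne'
  have hle : ∀ U : Subgroup A, padicValNat p (Nat.card U) ≤ α := fun U =>
    (padicValNat_dvd_iff_le hcardA).1 ((pow_padicValNat_dvd).trans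
      (Subgroup.card_subgroup_dvd_card U))
  have h4 := h2 (e₀ + α) (by omega)
  rw [finsum_eq_sum_of_fintype] at h4
  let _ : CommGroup A := IsCyclic.commGroup
  obtain ⟨S⟩ : Nonempty (Sylow p A) := inferInstance
  have h5 : ∑ U : Subgroup A, (if (S : Subgroup A) ≤ U then
      (Nat.card U : ℤ) ^ 2 * a e₀ U else 0) = 0 := by
    refine Eq.trans (Finset.sum_congr rfl fun U _ => ?_) h4
    by_cases hU : (S : Subgroup A) ≤ U
    · rw [if_pos hU, (D12_sylow p S U).2 hU]
      congr 2
      omega
    · rw [if_neg hU]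
      have h6 : padicValNat p (Nat.card U) ≠ α := fun h => hU ((D12_sylow p S U).1 h)
      have h7 := hle U
      rw [habove _ (by omega), mul_zero]
  -- count pairs
  have h6 : ∀ U : Subgroup A, (Nat.card U : ℤ) ^ 2 =
      ∑ xy : A × A, if xy.1 ∈ U ∧ xy.2 ∈ U then 1 else 0 := by
    intro U
    rw [Finset.sum_boole]
    have : (Finset.univ.filter fun xy : A × A => xy.1 ∈ U ∧ xy.2 ∈ U) =
        (Finset.univ.filter fun x : A => x ∈ U) ×ˢ (Finset.univ.filter fun x : A => x ∈ U) := by
      ext xy
      simp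
    rw [this, Finset.card_product]
    have hc : (Finset.univ.filter fun x : A => x ∈ U).card = Nat.card U := by
      rw [Nat.card_eq_fintype_card, ← Fintype.card_subtype]
    rw [hc]
    push_cast
    ring
  have h7 : ∑ xy : A × A, ∑ᶠ V : {V : Subgroup A //
      (S : Subgroup A) ⊔ Subgroup.closure {xy.1, xy.2} ≤ V}, a e₀ V.1 = 0 := by
    rw [← h5]
    simp only [D12_sum]
    rw [Finset.sum_comm]
    refine Finset.sum_congr rfl fun U _ => ?_
    by_cases hU : (S : Subgroup A) ≤ U
    · rw [if_pos hU, h6, Finset.sum_mul]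
      refine Finset.sum_congr rfl fun xy _ => ?_
      have h8 : (S : Subgroup A) ⊔ Subgroup.closure {xy.1, xy.2} ≤ U ↔ xy.1 ∈ U ∧ xy.2 ∈ U := by
        rw [sup_le_iff, Subgroup.closure_le]
        constructor
        · rintro ⟨-, h⟩
          exact ⟨h (by simp), h (by simp)⟩
        · rintro ⟨hx, hy⟩
          refine ⟨hU, ?_⟩
          rintro z (rfl | rfl)
          · exact hx
          · exact hy
      by_cases hxy : xy.1 ∈ U ∧ xy.2 ∈ U
      · rw [if_pos (h8.2 hxy), if_pos hxy, one_mul]
      · rw [if_neg (fun h => hxy (h8.1 h)), if_neg hxy, zero_mul]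
    · rw [if_neg hU]
      refine Finset.sum_eq_zero fun xy _ => if_neg fun h => hU (le_sup_left.trans h)
  have h8 : ∀ xy : A × A, ∑ᶠ V : {V : Subgroup A //
      (S : Subgroup A) ⊔ Subgroup.closure {xy.1, xy.2} ≤ V}, a e₀ V.1 =
      if (S : Subgroup A) ⊔ Subgroup.closure {xy.1, xy.2} = ⊤ then a e₀ ⊤ else 0 := by
    intro xy
    by_cases hW : (S : Subgroup A) ⊔ Subgroup.closure {xy.1, xy.2} = ⊤
    · rw [if_pos hW, hW, D12_top]
    · rw [if_neg hW]
      exact h1 e₀ he₀ _ hW
  simp only [h8] at h7
  rw [← Finset.sum_filter, Finset.sum_const, nsmul_eq_mul, mul_eq_zero] at h7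
  rcases h7 with h | h
  · obtain ⟨g, hg⟩ := hA.exists_generator
    have hmem : ((g, 1) : A × A) ∈ Finset.univ.filter fun xy : A × A =>
        (S : Subgroup A) ⊔ Subgroup.closure {xy.1, xy.2} = ⊤ := by
      rw [Finset.mem_filter]
      refine ⟨Finset.mem_univ _, ?_⟩
      rw [eq_top_iff]
      intro x _
      have h9 : Subgroup.zpowers g ≤ (S : Subgroup A) ⊔ Subgroup.closure {g, 1} := by
        refine le_trans ?_ le_sup_right
        rw [Subgroup.zpowers_le]
        exact Subgroup.subset_closure (by simp)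
      exact h9 (hg x)
    have : 0 < (Finset.univ.filter fun xy : A × A =>
        (S : Subgroup A) ⊔ Subgroup.closure {xy.1, xy.2} = ⊤).card := Finset.card_pos.2 ⟨_, hmem⟩
    exact absurd h (by exact_mod_cast this.ne')
  · exact hne₀ h

end Pool.Agent.DI
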