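import Mathlib
import Pool.Agent.helper81.DI.D12

set_option autoImplicit false

namespace Pool.Agent.DI

open Pool.Agent.helper58.DC

theorem D14 (hRE : RE_stmt) (hST : ST_stmt) (hFN : FN_stmt) (hD6 : D6_stmt) (hD11 : D11_stmt)
    (hD12 : D12_stmt) (hD13 : D13_stmt) : D14_stmt := by
  intro p _ M hM hp hO n hn G E A _ _ _ _ _ X hA hlt hop χ hχ hpos d U
  by_cases hcard : Nat.card A < n
  · exact hn G E A X hA hcard hop χ hχ hpos d U
  have hAn : Nat.card A = n := by omega
  subst hAn
  have hfin : Finite A := Finite.of_surjective X.proj X.proj_surjective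
  -- sums over the subgroups containing a proper subgroup
  have h1 : ∀ e : ℤ, ∀ U : Subgroup A, U ≠ ⊤ →
      ∑ᶠ V : {V : Subgroup A // U ≤ V}, altSum X p M χ e V.1 = 0 := by
    intro e U hU
    rw [← hRE G E A X p M χ hχ e U]
    refine hn G (U.comap X.proj) U (resE X U) inferInstance ?_ hop χ hχ hpos e ⊤
    refine lt_of_le_of_ne (Subgroup.card_le_card_group U) fun h => hU ?_
    exact Subgroup.eq_top_of_card_eq U h
  have h2 : ∀ e : ℤ, altSum X p M χ e ⊤ = 0 := by
    intro e
    rcases le_or_gt e 0 with he | he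
    · exact hD6 G E A X p M hM hp χ hχ hpos e he ⊤
    · by_cases hS : Stable X M χ
      · refine hD12 A p hA (fun e U => altSum X p M χ e U) (fun e _ U hU => h1 e U hU)
          (fun d hd => hD11 G E A X p M hM hp hA hop hO hn χ hχ hS d hd) ?_ e (by omega)
        have hfinU : (⋃ U : Subgroup A, {d : ℤ | altSum X p M χ d U ≠ 0}).Finite :=
          Set.finite_iUnion fun U => hFN G E A X p M χ U
        obtain ⟨D, hD⟩ := hfinU.bddAbove
        refine ⟨D, fun e he U => ?_⟩
        by_contra hne
        exact absurd (hD (Set.mem_iUnion.2 ⟨U, hne⟩)) (not_le.2 he)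
      · by_contra hne
        exact hS (hST G E A X p M χ hχ e hne)
  refine hD13 A (fun U => altSum X p M χ d U) (fun U => ?_) U
  by_cases hU : U = ⊤
  · subst hU
    rw [D12_top (fun V => altSum X p M χ d V)]
    exact h2 d
  · exact h1 d U hU

end Pool.Agent.DI
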