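import Mathlib
import Pool.Agent.helper81.DI.SpecD
import Pool.Agent.helper81.DI.DefsL

set_option autoImplicit false

namespace Pool.Agent.DI

open Pool.Agent.helper58.DC

theorem D10L (hA2 : A2_stmt) (hA4 : A4_stmt) (hA7 : A7_stmt) (hA8 : A8_stmt) (hA14 : A14_stmt)
    (hB0 : B0_stmt) (hC15 : C15_stmt) (hD4 : D4_stmt) (hD5 : D5_stmt) (hD9 : D9_stmt)
    (G E A : Type) [Group G] [Group E] [Group A] [Finite G] [Finite E] (X : Extension G E A)
    (p : ℕ) [Fact p.Prime] (M : Ideal (integralClosure ℤ ℂ)) (hM : M.IsMaximal)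
    (hp : (p : integralClosure ℤ ℂ) ∈ M) (hA : IsCyclic A) (hCyc : CycNS p M E (Nat.card A))
    (τ : E → ℂ) (d : ℤ) (hd : (padicValNat p (Nat.card A) : ℤ) + 1 ≤ d) (Q : Subgroup E)
    (hQ : Q ≠ ⊥) (hQG : Q ⊓ X.inc.range = ⊥) :
    cSum p (X.inc.range ⊓ cz Q) ⊥ (cz Q) (gfun p M X.inc.range τ d) = 0 := by
  classical
  have hfinA : Finite A := Finite.of_surjective X.proj X.proj_surjective
  have hcq : CycQ X.inc.range := hB0.2.2.2 G E A X hA
  have hnor : X.inc.range.Normal := hcq.1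
  -- `cz Q` normalises `K`
  have hczn : cz Q ≤ nz (X.inc.range ⊓ cz Q) := by
    intro m hm
    rw [Subgroup.mem_normalizer_iff]
    intro x
    have h1 : x ∈ X.inc.range ↔ m * x * m⁻¹ ∈ X.inc.range := by
      constructor
      · intro hx
        exact hnor.conj_mem x hx m
      · intro hx
        have := hnor.conj_mem _ hx m⁻¹
        simpa [mul_assoc] using this
    have h2 : x ∈ cz Q ↔ m * x * m⁻¹ ∈ cz Q := by
      constructor
      · intro hx
        exact (cz Q).mul_mem ((cz Q).mul_mem hm hx) ((cz Q).inv_mem hm)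
      · intro hx
        have := (cz Q).mul_mem ((cz Q).mul_mem ((cz Q).inv_mem hm) hx) hm
        simpa [mul_assoc] using this
    rw [Subgroup.mem_inf, Subgroup.mem_inf, h1, h2]
  obtain ⟨⟨Y, hY⟩, hYall⟩ := hA2 E p (X.inc.range ⊓ cz Q)
  obtain ⟨hY1, hY2, hY3, hY4, -⟩ := hYall Y hY
  by_cases hYb : Y = ⊥
  · subst hYb
    rw [← hA7 E p (X.inc.range ⊓ cz Q) ⊥ (cz Q) _ hY (inf_le_left.trans hczn)]
    obtain ⟨E', A', _, _, _, W, ε, hεi, hA', hlt, hdvd⟩ := hD9 G E A X hA Q hQ hQG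
    have hfinA' : Finite A' := Finite.of_surjective W.proj W.proj_surjective
    have h8 := hA8 ↥(X.inc.range ⊓ cz Q) E p ε.i ε.i_inj (cz Q) (gfun p M X.inc.range τ d)
    have hr : ε.i.range = X.inc.range ⊓ cz Q := by
      rw [hεi, Subgroup.range_subtype]
    rw [hr] at h8
    rw [← h8]
    obtain ⟨R, hR1, hR2⟩ := hC15 ↥(X.inc.range ⊓ cz Q) M
    rw [hD4 ↥(X.inc.range ⊓ cz Q) E' A' E W X.inc.range (cz Q) (Nat.card Q) ε p M hM hp hcq τ d R
      hR1 hR2]
    refine Finset.sum_eq_zero fun b hb => ?_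
    split_ifs with hcov
    · refine finsum_eq_zero_of_forall_eq_zero fun U => ?_
      have he : (1 : ℤ) ≤ d - padicValNat p (Nat.card Q * Nat.card U) := by
        have h1 : Nat.card Q * Nat.card U ∣ Nat.card A :=
          (Nat.mul_dvd_mul_left _ (Subgroup.card_subgroup_dvd_card U)).trans hdvd
        have h2 : padicValNat p (Nat.card Q * Nat.card U) ≤ padicValNat p (Nat.card A) :=
          (padicValNat_dvd_iff_le Nat.card_pos.ne').1 ((pow_padicValNat_dvd).trans h1)
        have h3 : (padicValNat p (Nat.card Q * Nat.card U) : ℤ) ≤ padicValNat p (Nat.card A) := by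
          exact_mod_cast h2
        linarith
      have h0 : altSum W p M b (d - padicValNat p (Nat.card Q * Nat.card U)) U = 0 := by
        by_cases hpos : PosDefect p M b
        · refine hCyc _ E' A' W ⟨cz Q, ε.π, ε.π_surj⟩ hA' hlt ?_ b (hR1 b hb) hpos _ U
          exact ((hA14 ↥(X.inc.range ⊓ cz Q) E p (X.inc.range ⊓ cz Q).subtype
            (Subgroup.subtype_injective _)).2.2 (X.inc.range ⊓ cz Q)).2 hY
        · exact hD5 _ E' A' W p M hM hp b (hR1 b hb) hpos _ he U
      rw [h0, mul_zero, mul_zero]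
    · rfl
  · refine hA4 E p (X.inc.range ⊓ cz Q) ⊥ (cz Q) Y _ hY2 hY1 hY3
      ((inf_le_left.trans hczn).trans hY4) ?_
    intro h
    exact hYb (le_bot_iff.1 h)

end Pool.Agent.DI
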