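import Mathlib
import Pool.Agent.helper81.DI.SpecD
import Pool.Agent.helper81.DI.DefsL
import Pool.Agent.helper81.DI.D7

set_option autoImplicit false

namespace Pool.Agent.DI

open Pool.Agent.helper58.DC

theorem D7L (hB2 : B2_stmt) (hC1 : C1_stmt) (hC9 : C9_stmt) (hC15 : C15_stmt) (hD1 : D1_stmt)
    (hD5 : D5_stmt) (Γ : Type) [Group Γ] [Finite Γ] (p : ℕ) [Fact p.Prime]
    (M : Ideal (integralClosure ℤ ℂ)) (hM : M.IsMaximal) (hp : (p : integralClosure ℤ ℂ) ∈ M)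
    (hO : OrdAt p M Γ) (hop : IsOp p (⊤ : Subgroup Γ) ⊥) (G' : Subgroup Γ) (τ : Γ → ℂ) (d : ℤ)
    (hd : 1 ≤ d) :
    ∑ᶠ C ∈ {C : Finset (Subgroup Γ) | IsRadical p C},
      (-1) ^ (C.card + 1) * gfun p M G' τ d (nrm C) = 0 := by
  classical
  obtain ⟨R, hR1, hR2⟩ := hC15 Γ M
  have hC := hC1 p M hM hp
  have key : ∀ C : Finset (Subgroup Γ), IsRadical p C →
      gfun p M G' τ d (nrm C) = ∑ b ∈ R, if Cov M G' τ b then
        (Nat.card (nrm C) : ℤ) * kC (trivE Γ) p M b d ⊤ C else 0 := by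
    intro C hCr
    unfold gfun
    have h1 : Nat.card {φ : Γ → ℂ // φ ∈ IrrOn (nrm C) ∧ Defect p (nrm C) φ d ∧ Cov M G' τ φ} =
        ∑ b ∈ R.filter (fun b => Cov M G' τ b), kC (trivE Γ) p M b d ⊤ C := by
      unfold kC
      refine D7_card _ _ (fun b φ => φ ∈ IrrOn (nrm C) ∧ Defect p (nrm C) φ d ∧ Induces M φ b ∧
        ((trivE Γ).stab C φ).map (trivE Γ).proj = ⊤) ?_ ?_ ?_
      · refine Set.Finite.to_subtype (s := {φ : Γ → ℂ | φ ∈ IrrOn (nrm C) ∧
          Defect p (nrm C) φ d ∧ Cov M G' τ φ}) ?_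
        exact (hB2 Γ (nrm C)).1.subset fun φ hφ => hφ.1
      · rintro φ ⟨h1, h2, h3⟩
        obtain ⟨b, ⟨hb1, hb2⟩, hb3⟩ := hR2 φ (hC9 Γ p M hM hp C hCr φ h1)
        refine ⟨b, ⟨?_, h1, h2, hb2, Subsingleton.elim _ _⟩, ?_⟩
        · rw [Finset.mem_filter]
          exact ⟨hb1, fun g hg => hC.2.2.1 _ _ _ (hC.2.1 _ _ (hb2 g)) (h3 g hg)⟩
        · rintro b' ⟨hb'1, -, -, hb'2, -⟩
          exact hb3 b' ⟨(Finset.mem_filter.1 hb'1).1, hb'2⟩
      · rintro b hb φ ⟨h1, h2, h3, -⟩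
        exact ⟨h1, h2, fun g hg => hC.2.2.1 _ _ _ (h3 g) ((Finset.mem_filter.1 hb).2 g hg)⟩
    rw [h1, Finset.sum_filter]
    push_cast
    rw [Finset.mul_sum]
    refine Finset.sum_congr rfl fun b _ => ?_
    split_ifs <;> simp
  have hfinC : {C : Finset (Subgroup Γ) | IsRadical p C}.Finite := Set.toFinite _
  calc ∑ᶠ C ∈ {C : Finset (Subgroup Γ) | IsRadical p C},
        (-1) ^ (C.card + 1) * gfun p M G' τ d (nrm C)
      = ∑ᶠ C ∈ {C : Finset (Subgroup Γ) | IsRadical p C}, ∑ b ∈ R, if Cov M G' τ b then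
          (-1) ^ (C.card + 1) * ((Nat.card (nrm C) : ℤ) * kC (trivE Γ) p M b d ⊤ C) else 0 := by
        refine finsum_mem_congr rfl fun C hC => ?_
        rw [key C hC, Finset.mul_sum]
        refine Finset.sum_congr rfl fun b _ => ?_
        split_ifs <;> simp
    _ = ∑ b ∈ R, ∑ᶠ C ∈ {C : Finset (Subgroup Γ) | IsRadical p C}, if Cov M G' τ b then
          (-1) ^ (C.card + 1) * ((Nat.card (nrm C) : ℤ) * kC (trivE Γ) p M b d ⊤ C) else 0 := by
        rw [finsum_mem_eq_finite_toFinset_sum _ hfinC, Finset.sum_comm]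
        refine Finset.sum_congr rfl fun b _ => ?_
        rw [finsum_mem_eq_finite_toFinset_sum _ hfinC]
    _ = 0 := by
        refine Finset.sum_eq_zero fun b hb => ?_
        by_cases hcov : Cov M G' τ b
        · simp only [if_pos hcov]
          rw [← hD1 Γ Γ Unit (trivE Γ) p M b (hR1 b hb) d ⊤]
          by_cases hpos : PosDefect p M b
          · rw [hO hop b (hR1 b hb) hpos d, mul_zero]
          · rw [hD5 Γ Γ Unit (trivE Γ) p M hM hp b (hR1 b hb) hpos d hd ⊤, mul_zero]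
        · simp [if_neg hcov]

end Pool.Agent.DI
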