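import Mathlib
import Pool.Agent.helper81.DI.D12
import Pool.Agent.helper81.DI.D11L

set_option autoImplicit false

namespace Pool.Agent.DI

open Pool.Agent.helper58.DC

theorem D14L (hRE : RE_stmt) (hST : ST_stmt) (hFN : FN_stmt) (hIM : IM_stmt)
    (hA2 : A2_stmt) (hA4 : A4_stmt) (hA7 : A7_stmt) (hA8 : A8_stmt) (hA12 : A12_stmt)
    (hA14 : A14_stmt) (hB0 : B0_stmt) (hB2 : B2_stmt) (hC1 : C1_stmt) (hC9 : C9_stmt)
    (hC10 : C10_stmt) (hC15 : C15_stmt) (hC16 : C16_stmt) (hD0 : D0_stmt) (hD1 : D1_stmt)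
    (hD4 : D4_stmt) (hD5 : D5_stmt) (hD6 : D6_stmt) (hD8 : D8_stmt) (hD9 : D9_stmt)
    (hD12 : D12_stmt) (hD13 : D13_stmt)
    (p : ℕ) [Fact p.Prime] (M : Ideal (integralClosure ℤ ℂ)) (hM : M.IsMaximal)
    (hp : (p : integralClosure ℤ ℂ) ∈ M) (E₀ : Type) [Group E₀] (hO : OrdS p M E₀) (n : ℕ)
    (hn : CycNS p M E₀ n) : CycNS p M E₀ (n + 1) := by
  intro G E A _ _ _ _ _ X hsec hA hlt hop χ hχ hpos d U
  by_cases hcard : Nat.card A < n
  · exact hn G E A X hsec hA hcard hop χ hχ hpos d U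
  have hAn : Nat.card A = n := by omega
  subst hAn
  have hfin : Finite A := Finite.of_surjective X.proj X.proj_surjective
  -- sums over the subgroups containing a proper subgroup
  have h1 : ∀ e : ℤ, ∀ U : Subgroup A, U ≠ ⊤ →
      ∑ᶠ V : {V : Subgroup A // U ≤ V}, altSum X p M χ e V.1 = 0 := by
    intro e U hU
    rw [← hRE G E A X p M χ hχ e U]
    refine hn G (U.comap X.proj) U (resE X U) ((Sec.sub _).trans hsec) inferInstance ?_ hop χ hχ
      hpos e ⊤
    refine lt_of_le_of_ne (Subgroup.card_le_card_group U) fun h => hU ?_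
    exact Subgroup.eq_top_of_card_eq U h
  have hnE : CycNS p M E (Nat.card A) := by
    intro G' E' A' _ _ _ _ _ X' hsec' hA' hlt' hop' χ' hχ' hpos' d' U'
    exact hn G' E' A' X' (hsec'.trans hsec) hA' hlt' hop' χ' hχ' hpos' d' U'
  have h2 : ∀ e : ℤ, altSum X p M χ e ⊤ = 0 := by
    intro e
    rcases le_or_gt e 0 with he | he
    · exact hD6 G E A X p M hM hp χ hχ hpos e he ⊤
    · by_cases hS : Stable X M χ
      · refine hD12 A p hA (fun e U => altSum X p M χ e U) (fun e _ U hU => h1 e U hU)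
          (fun d hd => D11L hA2 hA4 hA7 hA8 hA12 hA14 hB0 hB2 hC1 hC9 hC10 hC15 hC16 hIM hD0 hD1
            hD4 hD5 hD8 hD9 G E A X p M hM hp hA hop (hO E hsec) hnE χ hχ hS d hd) ?_ e (by omega)
        have hfinU : (⋃ U : Subgroup A, {d : ℤ | altSum X p M χ d U ≠ 0}).Finite :=
          Set.finite_iUnion fun U => hFN G E A X p M χ U
        obtain ⟨D, hD⟩ := hfinU.bddAbove
        refine ⟨D, fun e he U => ?_⟩
        by_contra hne
        exact absurd (hD (Set.mem_iUnion.2 ⟨U, hne⟩)) (not_le.2 he)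
      · by_contra hne
        exact hS (hST G E A X p M χ hχ e hne)
  refine hD13 A (fun U => altSum X p M χ d U) (fun U => ?_) U
  by_cases hU : U = ⊤
  · subst hU
    rw [D12_top (fun V => altSum X p M χ d V)]
    exact h2 d
  · exact h1 d U hU

/-- The local form of the theorem, from the induction step. -/
theorem D15L (hRE : RE_stmt) (p : ℕ) (M : Ideal (integralClosure ℤ ℂ)) (E₀ : Type) [Group E₀]
    (hstep : OrdS p M E₀ → ∀ n, CycNS p M E₀ n → CycNS p M E₀ (n + 1)) :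
    (OrdS p M E₀ ↔ CycInvS p M E₀) ∧ (OrdS p M E₀ ↔ CycSumS p M E₀) := by
  have h1 : OrdS p M E₀ → CycInvS p M E₀ := by
    intro h
    have h1 : ∀ n, CycNS p M E₀ n := by
      intro n
      induction n with
      | zero =>
        intro G E A _ _ _ _ _ X _ _ hlt
        exact absurd hlt (Nat.not_lt_zero _)
      | succ n ih => exact hstep h n ih
    intro G E A _ _ _ _ _ X hsec hA hop χ hχ hpos d U
    exact h1 (Nat.card A + 1) G E A X hsec hA (Nat.lt_succ_self _) hop χ hχ hpos d U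
  have h2 : CycInvS p M E₀ → CycSumS p M E₀ := by
    intro h G E A _ _ _ _ _ X hsec hop χ hχ hpos d U hU
    rw [← hRE G E A X p M χ hχ d U]
    exact h G (U.comap X.proj) U (resE X U) ((Sec.sub _).trans hsec) hU hop χ hχ hpos d ⊤
  have h3 : CycSumS p M E₀ → OrdS p M E₀ := by
    intro h G _ _ hsec hop χ hχ hpos d
    have h4 := h G G Unit (trivE G) hsec hop χ hχ hpos d ⊤ inferInstance
    rwa [D12_top] at h4
  exact ⟨⟨h1, fun h => h3 (h2 h)⟩, ⟨fun h => h2 (h1 h), h3⟩⟩

end Pool.Agent.DI
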