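import Mathlib
import Pool.Agent.helper81.DI.D12

set_option autoImplicit false

namespace Pool.Agent.DI

open Pool.Agent.helper58.DC

theorem D15_cyc {p : ℕ} [Fact p.Prime] {M : Ideal (integralClosure ℤ ℂ)} (hM : M.IsMaximal)
    (hp : (p : integralClosure ℤ ℂ) ∈ M) (hD14 : D14_stmt) (h : Ord p M) : CycInv p M := by
  have h1 : ∀ n, CycN p M n := by
    intro n
    induction n with
    | zero =>
      intro G E A _ _ _ _ _ X _ hlt
      exact absurd hlt (Nat.not_lt_zero _)
    | succ n ih => exact hD14 p M hM hp h n ih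
  intro G E A _ _ _ _ _ X hA hop χ hχ hpos d U
  exact h1 (Nat.card A + 1) G E A X hA (Nat.lt_succ_self _) hop χ hχ hpos d U

theorem D15 (hD14 : D14_stmt) (hRE : RE_stmt) : D15_stmt := by
  intro p _ M hM hp
  have h1 : Ord p M → CycInv p M := D15_cyc hM hp hD14
  have h2 : CycInv p M → CycSum p M := by
    intro h G E A _ _ _ _ _ X hop χ hχ hpos d U hU
    rw [← hRE G E A X p M χ hχ d U]
    exact h G (U.comap X.proj) U (resE X U) hU hop χ hχ hpos d ⊤
  have h3 : CycSum p M → Ord p M := by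
    intro h G _ _ hop χ hχ hpos d
    have h4 := h G G Unit (trivE G) hop χ hχ hpos d ⊤ inferInstance
    rwa [D12_top] at h4
  exact ⟨⟨h1, fun h => h3 (h2 h)⟩, ⟨fun h => h2 (h1 h), h3⟩⟩

end Pool.Agent.DI
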