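import Mathlib
import Pool.Agent.helper81.DI.SpecD

set_option autoImplicit false

namespace Pool.Agent.DI

open Pool.Agent.helper58.DC

theorem D5 (hC13 : C13_stmt) : D5_stmt := by
  intro G E A _ _ _ _ X p _ M hM hp b hb hnp d hd U
  unfold altSum
  refine finsum_eq_zero_of_forall_eq_zero fun c => ?_
  have h : kC X p M b d U c.out.1 = 0 := by
    unfold kC
    rw [Nat.card_eq_zero]
    left
    refine ⟨fun ψ => hnp ?_⟩
    exact hC13 G p M hM hp (nrm c.out.1) ψ.1 ψ.2.1 d hd ψ.2.2.1 b hb ψ.2.2.2.1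
  rw [h]
  simp

end Pool.Agent.DI
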