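import Mathlib
import Pool.Agent.helper10.DI.C10
import Pool.Agent.helper11.DC.IRF
import Pool.Agent.helper11.DI.C11
import Pool.Agent.helper13.DI.B10
import Pool.Agent.helper14.DI.C3
import Pool.Agent.helper15.DI.A6
import Pool.Agent.helper16.DI.A7
import Pool.Agent.helper18.DI.A13
import Pool.Agent.helper18.DI.C4
import Pool.Agent.helper19.DI.A5
import Pool.Agent.helper21.DI.B9
import Pool.Agent.helper21.DI.C14
import Pool.Agent.helper22.DI.D0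
import Pool.Agent.helper22.DI.D2
import Pool.Agent.helper22.DI.D4
import Pool.Agent.helper24.DI.D6
import Pool.Agent.helper30.DC.IRT
import Pool.Agent.helper31.DC.TI
import Pool.Agent.helper31.DI.C16
import Pool.Agent.helper31.DI.D11
import Pool.Agent.helper33.DI.C2
import Pool.Agent.helper34.DI.A3
import Pool.Agent.helper34.DI.A8
import Pool.Agent.helper34.DI.A9
import Pool.Agent.helper43.DI.B5
import Pool.Agent.helper43.DI.B9b
import Pool.Agent.helper45.DI.C6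
import Pool.Agent.helper48.DI.B0
import Pool.Agent.helper50.DI.C5
import Pool.Agent.helper51.DC.IM
import Pool.Agent.helper51.DI.C7
import Pool.Agent.helper51.DI.D3
import Pool.Agent.helper52.DI.C12
import Pool.Agent.helper53.DI.A1
import Pool.Agent.helper53.DI.B14
import Pool.Agent.helper53.DI.B9a
import Pool.Agent.helper54.DI.B2
import Pool.Agent.helper55.DC.OM
import Pool.Agent.helper55.DC.ST
import Pool.Agent.helper6.DI.B4
import Pool.Agent.helper61.DC.RE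
import Pool.Agent.helper61.DI.A14
import Pool.Agent.helper63.DI.A10
import Pool.Agent.helper64.DC.IF
import Pool.Agent.helper64.DI.B1
import Pool.Agent.helper64.DI.B3
import Pool.Agent.helper64.DI.B8
import Pool.Agent.helper64.DI.C8
import Pool.Agent.helper65.DI.B11
import Pool.Agent.helper65.DI.D1
import Pool.Agent.helper70.DI.A11
import Pool.Agent.helper77.DI.C1
import Pool.Agent.helper77.DI.C9
import Pool.Agent.helper77.DI.D9
import Pool.Agent.helper78.DI.C15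
import Pool.Agent.helper78.DI.D8
import Pool.Agent.helper79.DC.SN
import Pool.Agent.helper80.DI.B12
import Pool.Agent.helper81.DI.D10
import Pool.Agent.helper81.DI.D12
import Pool.Agent.helper81.DI.D14
import Pool.Agent.helper81.DI.D15
import Pool.Agent.helper81.DI.D5
import Pool.Agent.helper81.DI.D7
import Pool.Agent.helper91.DC.FN
import Pool.Agent.helper91.DI.A4
import Pool.Agent.helper91.DI.B6
import Pool.Agent.helper92.DI.A12
import Pool.Agent.helper92.DI.A2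
import Pool.Agent.helper93.DC.OI
import Pool.Agent.helper93.DI.B7
import Pool.Agent.helper95.DI.C5a
import Pool.Agent.helper97.DI.C13
import Pool.Agent.helper98.DC.NM
import Pool.Agent.helper98.DI.B13
import Pool.Agent.helper98.DI.D13
import Pool.Agent.helper81.DI.D14L

/-!
# Project di (MP_baa4d7_al): assembly of all modules
-/

set_option autoImplicit false

namespace Pool.Agent.DI

open Pool.Agent.helper58.DC

theorem FIN : D15_stmt ∧ ∀ (p : ℕ) [Fact p.Prime]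
    (M : Ideal (integralClosure ℤ ℂ)), M.IsMaximal → (p : integralClosure ℤ ℂ) ∈ M →
    ∀ (E₀ : Type) [Group E₀], (OrdS p M E₀ ↔ CycInvS p M E₀) ∧ (OrdS p M E₀ ↔ CycSumS p M E₀) := by
  have hA1 : Pool.Agent.DI.A1_stmt := Pool.Agent.DI.A1
  have hA2 : Pool.Agent.DI.A2_stmt := Pool.Agent.DI.A2
  have hA3 : Pool.Agent.DI.A3_stmt := Pool.Agent.DI.A3 hA1
  have hA4 : Pool.Agent.DI.A4_stmt := Pool.Agent.DI.A4 hA1
  have hA5 : Pool.Agent.DI.A5_stmt := Pool.Agent.DI.A5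
  have hA6 : Pool.Agent.DI.A6_stmt := Pool.Agent.DI.A6
  have hA7 : Pool.Agent.DI.A7_stmt := Pool.Agent.DI.A7 hA2 hA3 hA4 hA5 hA6
  have hA14 : Pool.Agent.DI.A14_stmt := Pool.Agent.DI.A14
  have hA8 : Pool.Agent.DI.A8_stmt := Pool.Agent.DI.A8 hA14
  have hA9 : Pool.Agent.DI.A9_stmt := Pool.Agent.DI.A9
  have hA10 : Pool.Agent.DI.A10_stmt := Pool.Agent.DI.A10 hA1
  have hA11 : Pool.Agent.DI.A11_stmt := Pool.Agent.DI.A11
  have hA12 : Pool.Agent.DI.A12_stmt := Pool.Agent.DI.A12 hA3 hA9 hA10 hA11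
  have hA13 : Pool.Agent.DI.A13_stmt := Pool.Agent.DI.A13
  have hB0 : Pool.Agent.DI.B0_stmt := Pool.Agent.DI.B0
  have hB1 : Pool.Agent.DI.B1_stmt := Pool.Agent.DI.B1
  have hB2 : Pool.Agent.DI.B2_stmt := Pool.Agent.DI.B2 hB1
  have hB3 : Pool.Agent.DI.B3_stmt := Pool.Agent.DI.B3
  have hB4 : Pool.Agent.DI.B4_stmt := Pool.Agent.DI.B4
  have hB5 : Pool.Agent.DI.B5_stmt := Pool.Agent.DI.B5
  have hB6 : Pool.Agent.DI.B6_stmt := Pool.Agent.DI.B6
  have hB7 : Pool.Agent.DI.B7_stmt := Pool.Agent.DI.B7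
  have hB8 : Pool.Agent.DI.B8_stmt := Pool.Agent.DI.B8 hB1 hB6
  have hB9a : Pool.Agent.DI.B9a_stmt := Pool.Agent.DI.B9a hB1 hB2 hB3
  have hIRTx : Pool.Agent.helper58.DC.IRT_stmt := Pool.Agent.helper30.DC.IRT
  have hIRFx : Pool.Agent.helper58.DC.IRF_stmt := Pool.Agent.helper11.DC.IRF
  have hIFx : Pool.Agent.helper58.DC.IF_stmt := Pool.Agent.helper64.DC.IF hIRFx hIRTx
  have hB9b : Pool.Agent.DI.B9b_stmt := Pool.Agent.DI.B9b hB0 hB1 hB2 hB3 hB7 hB9a hIRTx hIFx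
  have hB9 : Pool.Agent.DI.B9_stmt := Pool.Agent.DI.B9 hIFx hB1 hB2 hB3 hB5 hB6 hB8 hB9b
  have hB10 : Pool.Agent.DI.B10_stmt := Pool.Agent.DI.B10 hIRTx hB0 hB9
  have hB11 : Pool.Agent.DI.B11_stmt := Pool.Agent.DI.B11
  have hB12 : Pool.Agent.DI.B12_stmt := Pool.Agent.DI.B12 hIFx hB10 hB11
  have hB13 : Pool.Agent.DI.B13_stmt := Pool.Agent.DI.B13 hIRTx
  have hB14 : Pool.Agent.DI.B14_stmt := Pool.Agent.DI.B14
  have hC1 : Pool.Agent.DI.C1_stmt := Pool.Agent.DI.C1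
  have hC2 : Pool.Agent.DI.C2_stmt := Pool.Agent.DI.C2
  have hC3 : Pool.Agent.DI.C3_stmt := Pool.Agent.DI.C3
  have hC4 : Pool.Agent.DI.C4_stmt := Pool.Agent.DI.C4 hB1 hB4
  have hTIx : Pool.Agent.helper58.DC.TI_stmt := Pool.Agent.helper31.DC.TI hIRTx
  have hC5 : Pool.Agent.DI.C5_stmt := Pool.Agent.DI.C5 hC3 hTIx
  have hC5a : Pool.Agent.DI.C5a_stmt := Pool.Agent.DI.C5a hC5
  have hC6 : Pool.Agent.DI.C6_stmt := Pool.Agent.DI.C6
  have hC7 : Pool.Agent.DI.C7_stmt := Pool.Agent.DI.C7 hB2 hC1 hC3 hC4 hC5a hC6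
  have hC8 : Pool.Agent.DI.C8_stmt := Pool.Agent.DI.C8 hC1 hC3 hC4
  have hC9 : Pool.Agent.DI.C9_stmt := Pool.Agent.DI.C9 hA13 hC7 hC8
  have hC10 : Pool.Agent.DI.C10_stmt := Pool.Agent.DI.C10 hC1 hC2 hC3 hC4 hTIx hIRFx
  have hC11 : Pool.Agent.DI.C11_stmt := Pool.Agent.DI.C11 hB1 hC1 hC3
  have hOIx : Pool.Agent.helper58.DC.OI_stmt := Pool.Agent.helper93.DC.OI
  have hC12 : Pool.Agent.DI.C12_stmt := Pool.Agent.DI.C12 hC1 hB1 hOIx hTIx
  have hC13 : Pool.Agent.DI.C13_stmt := Pool.Agent.DI.C13 hC1 hC3 hC12 hB1 hB2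
  have hC14 : Pool.Agent.DI.C14_stmt := Pool.Agent.DI.C14 hC12 hC5 hC3
  have hOMx : Pool.Agent.helper58.DC.OM_stmt := Pool.Agent.helper55.DC.OM
  have hIMx : Pool.Agent.helper58.DC.IM_stmt := Pool.Agent.helper51.DC.IM hOMx
  have hC15 : Pool.Agent.DI.C15_stmt := Pool.Agent.DI.C15 hIMx hIRFx
  have hC16 : Pool.Agent.DI.C16_stmt := Pool.Agent.DI.C16 hC1
  have hD0 : Pool.Agent.DI.D0_stmt := Pool.Agent.DI.D0
  have hNMx : Pool.Agent.helper58.DC.NM_stmt := Pool.Agent.helper98.DC.NM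
  have hSNx : Pool.Agent.helper58.DC.SN_stmt := Pool.Agent.helper79.DC.SN
  have hD1 : Pool.Agent.DI.D1_stmt := Pool.Agent.DI.D1 hNMx hSNx hIFx hOMx
  have hD2 : Pool.Agent.DI.D2_stmt := Pool.Agent.DI.D2 hB13 hB14 hB2 hSNx
  have hD3 : Pool.Agent.DI.D3_stmt := Pool.Agent.DI.D3 hB2 hB12 hB13 hD2
  have hD4 : Pool.Agent.DI.D4_stmt := Pool.Agent.DI.D4 hD3 hD1 hC9 hC16 hC1 hB2
  have hD5 : Pool.Agent.DI.D5_stmt := Pool.Agent.DI.D5 hC13
  have hD6 : Pool.Agent.DI.D6_stmt := Pool.Agent.DI.D6 hA13 hB2 hC11 hC14 hTIx hIMx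
  have hD7 : Pool.Agent.DI.D7_stmt := Pool.Agent.DI.D7 hB2 hC1 hC9 hC15 hD1 hD5
  have hD8 : Pool.Agent.DI.D8_stmt := Pool.Agent.DI.D8
  have hD9 : Pool.Agent.DI.D9_stmt := Pool.Agent.DI.D9
  have hD10 : Pool.Agent.DI.D10_stmt := Pool.Agent.DI.D10 hA2 hA4 hA7 hA8 hA14 hB0 hC15 hD4 hD5 hD9
  have hD11 : Pool.Agent.DI.D11_stmt := Pool.Agent.DI.D11 hA2 hA4 hA7 hA8 hA12 hA14 hB0 hC1 hC10 hC15 hC16 hIMx hD0 hD4 hD7 hD8 hD10
  have hD13 : Pool.Agent.DI.D13_stmt := Pool.Agent.DI.D13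
  have hD12 : Pool.Agent.DI.D12_stmt := Pool.Agent.DI.D12 hD13
  have hREx : Pool.Agent.helper58.DC.RE_stmt := Pool.Agent.helper61.DC.RE hIFx
  have hSTx : Pool.Agent.helper58.DC.ST_stmt := Pool.Agent.helper55.DC.ST hIMx hIFx hTIx
  have hFNx : Pool.Agent.helper58.DC.FN_stmt := Pool.Agent.helper91.DC.FN hIRFx
  have hD14 : Pool.Agent.DI.D14_stmt := Pool.Agent.DI.D14 hREx hSTx hFNx hD6 hD11 hD12 hD13
  have hD15 : Pool.Agent.DI.D15_stmt := Pool.Agent.DI.D15 hD14 hREx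
  refine ⟨hD15, fun p _ M hM hp E₀ _ => D15L hREx p M E₀ fun hO n hn => ?_⟩
  exact D14L hREx hSTx hFNx hIMx hA2 hA4 hA7 hA8 hA12 hA14 hB0 hB2 hC1 hC9 hC10 hC15 hC16 hD0 hD1
    hD4 hD5 hD6 hD8 hD9 hD12 hD13 p M hM hp E₀ hO n hn

end Pool.Agent.DI
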